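import Pool.Agent.H93.GS.DefsB

/-!
ROW BA (110 lines).  Dimension of the coinduced representation.  Let `Q = Quotient (QuotientGroup.rightRel H)` (right cosets `H g`; finite with `H.index` elements:
`QuotientGroup.card_quotient_rightRel`, `Subgroup.index`, or `QuotientGroup.quotientRightRelEquivQuotientLeftRel`), `s q = q.out`.  For `g : G` put `h g = g * (s [g])⁻¹ ∈ H`.
* `CoI_equiv`: `φ ↦ (q ↦ φ (s q))` is a linear equivalence `CoI p H ρ ≃ (Q → M)`, inverse `ψ ↦ (g ↦ ρ (h g) (ψ [g]))`; for `k ∈ H`: `[k g] = [g]`, `h (k g) = k * h g`.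
* `CoI_fin`, `CoI_finrank`: `Module.finrank_pi_fintype`/`Module.finrank_fintype_fun_eq_card`-like: `finrank (Q → M) = card Q * finrank M`.
* `CoI_surj`: given `ψ ∈ CoI σ`, choose `φ` with `φ (s q) ∈ π⁻¹ (ψ (s q))` by the equivalence; then `π (φ g) = π (ρ (h g) (φ (s [g]))) = σ (h g) (ψ (s [g])) = ψ g`.
-/

set_option autoImplicit false

namespace Pool.Agent.H93.GS

private lemma ba_mem {G : Type} [Group G] (H : Subgroup G) (g : G) :
    g * (Quotient.out (Quotient.mk (QuotientGroup.rightRel H) g))⁻¹ ∈ H := by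
  have h1 : (QuotientGroup.rightRel H).r
      (Quotient.out (Quotient.mk (QuotientGroup.rightRel H) g)) g :=
    Quotient.exact (Quotient.out_eq (Quotient.mk (QuotientGroup.rightRel H) g))
  exact QuotientGroup.rightRel_apply.1 h1

private lemma ba_mk {G : Type} [Group G] (H : Subgroup G) (k : H) (g : G) :
    Quotient.mk (QuotientGroup.rightRel H) ((k : G) * g)
      = Quotient.mk (QuotientGroup.rightRel H) g := by
  apply Quotient.sound
  show (QuotientGroup.rightRel H).r ((k : G) * g) g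
  refine QuotientGroup.rightRel_apply.2 ?_
  rw [mul_inv_rev, ← mul_assoc, mul_inv_cancel, one_mul]
  exact H.inv_mem k.2

theorem CoI_equiv (p : ℕ) {G : Type} [Group G] (H : Subgroup G) {M : Type} [AddCommGroup M]
    [Module (ZMod p) M] (ρ : Representation (ZMod p) H M) :
    ∃ (Q : Type) (s : Q → G) (e : CoI p H ρ ≃ₗ[ZMod p] (Q → M)), Nat.card Q = H.index ∧
      (∀ φ q, e φ q = φ.1 (s q)) ∧ ∀ g : G, ∃ (q : Q) (h : H), g = h * s q := by
  classical
  let Q : Type := Quotient (QuotientGroup.rightRel H)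
  let mk : G → Q := fun g => Quotient.mk (QuotientGroup.rightRel H) g
  let s : Q → G := fun q => Quotient.out q
  have hmem : ∀ g : G, g * (s (mk g))⁻¹ ∈ H := fun g => ba_mem H g
  have hmk : ∀ (k : H) (g : G), mk ((k : G) * g) = mk g := fun k g => ba_mk H k g
  have hmks : ∀ q : Q, mk (s q) = q := fun q => Quotient.out_eq q
  let hh : G → H := fun g => ⟨g * (s (mk g))⁻¹, hmem g⟩
  have hhk : ∀ (k : H) (g : G), hh ((k : G) * g) = k * hh g := by
    intro k g
    apply Subtype.ext
    show (k : G) * g * (s (mk ((k : G) * g)))⁻¹ = (k : G) * (g * (s (mk g))⁻¹)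
    rw [hmk, mul_assoc]
  have hh1 : ∀ q : Q, hh (s q) = 1 := by
    intro q
    apply Subtype.ext
    show s q * (s (mk (s q)))⁻¹ = 1
    rw [hmks, mul_inv_cancel]
  let F : CoI p H ρ →ₗ[ZMod p] (Q → M) :=
    { toFun := fun φ q => φ.1 (s q)
      map_add' := fun a b => rfl
      map_smul' := fun c a => rfl }
  let inv : (Q → M) → CoI p H ρ := fun ψ => ⟨fun g => ρ (hh g) (ψ (mk g)), by
    intro k g
    show ρ (hh ((k : G) * g)) (ψ (mk ((k : G) * g))) = ρ k (ρ (hh g) (ψ (mk g)))
    rw [hhk, hmk, map_mul]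
    rfl⟩
  refine ⟨Q, s, LinearEquiv.ofBijective F ⟨?_, ?_⟩, ?_, ?_, ?_⟩
  · intro a b hab
    apply Subtype.ext
    funext g
    have h1 : g = ((hh g : H) : G) * s (mk g) := by
      show g = g * (s (mk g))⁻¹ * s (mk g)
      rw [inv_mul_cancel_right]
    rw [h1, a.2 (hh g) (s (mk g)), b.2 (hh g) (s (mk g))]
    exact congrArg _ (congrFun hab (mk g))
  · intro ψ
    refine ⟨inv ψ, ?_⟩
    funext q
    show ρ (hh (s q)) (ψ (mk (s q))) = ψ q
    rw [hh1, hmks, map_one]
    rfl
  · exact Nat.card_congr (QuotientGroup.quotientRightRelEquivQuotientLeftRel H)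
  · intro φ q
    rfl
  · intro g
    refine ⟨mk g, hh g, ?_⟩
    show g = g * (s (mk g))⁻¹ * s (mk g)
    rw [inv_mul_cancel_right]

private lemma ba_finQ {Q : Type} {G : Type} [Group G] (H : Subgroup G) [H.FiniteIndex]
    (h : Nat.card Q = H.index) : Finite Q := by
  apply Nat.finite_of_card_ne_zero
  rw [h]
  exact Subgroup.FiniteIndex.index_ne_zero

theorem CoI_fin (p : ℕ) {G : Type} [Group G] (H : Subgroup G) [H.FiniteIndex] {M : Type}
    [AddCommGroup M] [Module (ZMod p) M] [Module.Finite (ZMod p) M]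
    (ρ : Representation (ZMod p) H M) : Module.Finite (ZMod p) (CoI p H ρ) := by
  obtain ⟨Q, s, e, hc, _, _⟩ := CoI_equiv p H ρ
  haveI : Finite Q := ba_finQ H hc
  haveI := Fintype.ofFinite Q
  exact Module.Finite.equiv e.symm

theorem CoI_finrank (p : ℕ) [Fact p.Prime] {G : Type} [Group G] (H : Subgroup G)
    [H.FiniteIndex] {M : Type} [AddCommGroup M] [Module (ZMod p) M]
    [Module.Finite (ZMod p) M] (ρ : Representation (ZMod p) H M) :
    Module.finrank (ZMod p) (CoI p H ρ) = H.index * Module.finrank (ZMod p) M := by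
  obtain ⟨Q, s, e, hc, _, _⟩ := CoI_equiv p H ρ
  haveI : Finite Q := ba_finQ H hc
  haveI := Fintype.ofFinite Q
  rw [LinearEquiv.finrank_eq e, Module.finrank_pi_fintype, Finset.sum_const, Finset.card_univ,
    smul_eq_mul, ← hc, Nat.card_eq_fintype_card]

theorem CoI_surj (p : ℕ) {G : Type} [Group G] (H : Subgroup G) {M M' : Type}
    [AddCommGroup M] [Module (ZMod p) M] [AddCommGroup M'] [Module (ZMod p) M']
    (ρ : Representation (ZMod p) H M) (σ : Representation (ZMod p) H M')
    (π : M →ₗ[ZMod p] M') (hπ : Function.Surjective π)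
    (hc : ∀ (h : H) (v : M), π (ρ h v) = σ h (π v)) :
    ∃ Φ : CoI p H ρ →ₗ[ZMod p] CoI p H σ, Function.Surjective Φ ∧
      ∀ (g : G) (φ : CoI p H ρ), Φ (coR p H ρ g φ) = coR p H σ g (Φ φ) := by
  let Φ : CoI p H ρ →ₗ[ZMod p] CoI p H σ :=
    { toFun := fun φ => ⟨fun g => π (φ.1 g), by
        intro h g
        show π (φ.1 ((h : G) * g)) = σ h (π (φ.1 g))
        rw [φ.2 h g, hc]⟩
      map_add' := by
        intro a b
        apply Subtype.ext
        funext g
        show π (a.1 g + b.1 g) = π (a.1 g) + π (b.1 g)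
        rw [map_add]
      map_smul' := by
        intro c a
        apply Subtype.ext
        funext g
        show π (c • a.1 g) = c • π (a.1 g)
        rw [map_smul] }
  refine ⟨Φ, ?_, ?_⟩
  · intro ψ
    obtain ⟨Q, s, e, _, he, hs⟩ := CoI_equiv p H ρ
    choose f hf using fun q : Q => hπ (ψ.1 (s q))
    refine ⟨e.symm f, ?_⟩
    apply Subtype.ext
    funext g
    obtain ⟨q, h, rfl⟩ := hs g
    show π ((e.symm f).1 ((h : G) * s q)) = ψ.1 ((h : G) * s q)
    rw [(e.symm f).2 h (s q), ψ.2 h (s q), hc, ← he, LinearEquiv.apply_symm_apply, hf]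
  · intro g φ
    apply Subtype.ext
    funext x
    rfl

end Pool.Agent.H93.GS
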