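import Pool.Agent.H93.GS.Defs

/-!
ROW BB (90 lines).  Crossed homomorphisms of a free group.
* `free_ex`: let `α i : Equiv.Perm X` be `v ↦ x i + σ (of i) v` (inverse `v ↦ σ (of i)⁻¹ (v - x i)`), `L = FreeGroup.lift α : FreeGroup (Fin n) →* Equiv.Perm X`, `δ g = L g 0`.
  Then `L g v = δ g + σ g v` for all `g, v` (the set of such `g` is a subgroup containing the generators: `FreeGroup.induction_on`, or `Subgroup.closure_induction` with
  `FreeGroup.closure_range_of`), so `δ (g h) = L g (L h 0) = L g (δ h) = δ g + σ g (δ h)`.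
* `free_ext`: `{g | δ g = δ' g}` contains the generators; use `δ - δ' ∈ Z1` and that its zero set is a subgroup.
* `free_finrank`: `Z1 p σ ≃ₗ (Fin n → X)`.
-/

set_option autoImplicit false

namespace Pool.Agent.H93.GS

/-- the affine permutation of a generator -/
def BB_perm (p : ℕ) {n : ℕ} {X : Type} [AddCommGroup X] [Module (ZMod p) X]
    (σ : Representation (ZMod p) (FreeGroup (Fin n)) X) (x : Fin n → X) (i : Fin n) :
    Equiv.Perm X where
  toFun v := x i + σ (FreeGroup.of i) v
  invFun v := σ (FreeGroup.of i)⁻¹ (v - x i)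
  left_inv v := by
    show σ (FreeGroup.of i)⁻¹ (x i + σ (FreeGroup.of i) v - x i) = v
    rw [add_sub_cancel_left, ← Module.End.mul_apply, ← map_mul, inv_mul_cancel, map_one,
      Module.End.one_apply]
  right_inv v := by
    show x i + σ (FreeGroup.of i) (σ (FreeGroup.of i)⁻¹ (v - x i)) = v
    rw [← Module.End.mul_apply, ← map_mul, mul_inv_cancel, map_one,
      Module.End.one_apply, add_sub_cancel]

theorem BB_one (p : ℕ) {H : Type} [Group H] {X : Type} [AddCommGroup X] [Module (ZMod p) X]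
    (σ : Representation (ZMod p) H X) (δ : H → X) (h : δ ∈ Z1 p σ) : δ 1 = 0 := by
  have h1 := h 1 1
  rw [mul_one, map_one, Module.End.one_apply] at h1
  exact left_eq_add.mp h1

theorem BB_inv (p : ℕ) {H : Type} [Group H] {X : Type} [AddCommGroup X] [Module (ZMod p) X]
    (σ : Representation (ZMod p) H X) (δ : H → X) (h : δ ∈ Z1 p σ) (g : H) :
    δ g⁻¹ = - σ g⁻¹ (δ g) := by
  have h1 := h g⁻¹ g
  rw [inv_mul_cancel, BB_one p σ δ h] at h1
  exact eq_neg_of_add_eq_zero_left h1.symm

theorem free_ex (p : ℕ) {n : ℕ} {X : Type} [AddCommGroup X] [Module (ZMod p) X]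
    (σ : Representation (ZMod p) (FreeGroup (Fin n)) X) (x : Fin n → X) :
    ∃ δ ∈ Z1 p σ, ∀ i, δ (FreeGroup.of i) = x i := by
  let L : FreeGroup (Fin n) →* Equiv.Perm X := FreeGroup.lift (BB_perm p σ x)
  have hL : ∀ g : FreeGroup (Fin n), ∀ v : X, L g v = L g 0 + σ g v := by
    intro g
    induction g using FreeGroup.induction_on with
    | C1 =>
      intro v
      rw [map_one, map_one, Equiv.Perm.one_apply, Equiv.Perm.one_apply, Module.End.one_apply,
        zero_add]
    | of i =>
      intro v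
      have h1 : L (FreeGroup.of i) = BB_perm p σ x i := FreeGroup.lift_apply_of
      show L (FreeGroup.of i) v = L (FreeGroup.of i) 0 + σ (FreeGroup.of i) v
      rw [h1]
      show x i + σ (FreeGroup.of i) v = (x i + σ (FreeGroup.of i) 0) + σ (FreeGroup.of i) v
      rw [map_zero, add_zero]
    | inv_of i hi =>
      intro v
      have hi' : ∀ v : X, L (FreeGroup.of i) v = L (FreeGroup.of i) 0 + σ (FreeGroup.of i) v := hi
      show L (FreeGroup.of i)⁻¹ v = L (FreeGroup.of i)⁻¹ 0 + σ (FreeGroup.of i)⁻¹ v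
      apply (L (FreeGroup.of i)).injective
      rw [hi' (L (FreeGroup.of i)⁻¹ 0 + σ (FreeGroup.of i)⁻¹ v), map_add, ← add_assoc,
        ← hi' (L (FreeGroup.of i)⁻¹ 0), ← Module.End.mul_apply, ← map_mul σ, mul_inv_cancel,
        map_one, Module.End.one_apply, ← Equiv.Perm.mul_apply, ← Equiv.Perm.mul_apply,
        ← map_mul, mul_inv_cancel, map_one, Equiv.Perm.one_apply, Equiv.Perm.one_apply, zero_add]
    | mul g h hg hh =>
      intro v
      rw [map_mul, map_mul, Equiv.Perm.mul_apply, Equiv.Perm.mul_apply, Module.End.mul_apply,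
        hg (L h v), hg (L h 0), hh v, map_add, add_assoc]
  refine ⟨fun g => L g 0, ?_, ?_⟩
  · intro g h
    show L (g * h) 0 = L g 0 + σ g (L h 0)
    rw [map_mul, Equiv.Perm.mul_apply, hL g (L h 0)]
  · intro i
    have h1 : L (FreeGroup.of i) = BB_perm p σ x i := FreeGroup.lift_apply_of
    show L (FreeGroup.of i) 0 = x i
    rw [h1]
    show x i + σ (FreeGroup.of i) 0 = x i
    rw [map_zero, add_zero]

theorem free_ext (p : ℕ) {n : ℕ} {X : Type} [AddCommGroup X] [Module (ZMod p) X]
    (σ : Representation (ZMod p) (FreeGroup (Fin n)) X) (δ δ' : FreeGroup (Fin n) → X)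
    (h : δ ∈ Z1 p σ) (h' : δ' ∈ Z1 p σ) (he : ∀ i, δ (FreeGroup.of i) = δ' (FreeGroup.of i)) :
    δ = δ' := by
  funext g
  induction g using FreeGroup.induction_on with
  | C1 => rw [BB_one p σ δ h, BB_one p σ δ' h']
  | of i => exact he i
  | inv_of i hi =>
    have hi' : δ (FreeGroup.of i) = δ' (FreeGroup.of i) := hi
    show δ (FreeGroup.of i)⁻¹ = δ' (FreeGroup.of i)⁻¹
    rw [BB_inv p σ δ h, BB_inv p σ δ' h', hi']
  | mul a b ha hb => rw [h a b, h' a b, ha, hb]

/-- evaluation on the generators -/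
def BB_ev (p : ℕ) {n : ℕ} {X : Type} [AddCommGroup X] [Module (ZMod p) X]
    (σ : Representation (ZMod p) (FreeGroup (Fin n)) X) : Z1 p σ →ₗ[ZMod p] (Fin n → X) :=
  (LinearMap.funLeft (ZMod p) X FreeGroup.of).comp (Z1 p σ).subtype

theorem BB_bij (p : ℕ) {n : ℕ} {X : Type} [AddCommGroup X] [Module (ZMod p) X]
    (σ : Representation (ZMod p) (FreeGroup (Fin n)) X) : Function.Bijective (BB_ev p σ) := by
  constructor
  · intro a b hab
    apply Subtype.ext
    exact free_ext p σ a.1 b.1 a.2 b.2 fun i => congrFun hab i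
  · intro x
    obtain ⟨δ, h1, h2⟩ := free_ex p σ x
    exact ⟨⟨δ, h1⟩, funext h2⟩

theorem free_fin (p : ℕ) [Fact p.Prime] {n : ℕ} {X : Type} [AddCommGroup X]
    [Module (ZMod p) X] [Module.Finite (ZMod p) X]
    (σ : Representation (ZMod p) (FreeGroup (Fin n)) X) : Module.Finite (ZMod p) (Z1 p σ) := by
  exact Module.Finite.equiv (LinearEquiv.ofBijective (BB_ev p σ) (BB_bij p σ)).symm

theorem free_finrank (p : ℕ) [Fact p.Prime] {n : ℕ} {X : Type} [AddCommGroup X]
    [Module (ZMod p) X] [Module.Finite (ZMod p) X]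
    (σ : Representation (ZMod p) (FreeGroup (Fin n)) X) :
    Module.finrank (ZMod p) (Z1 p σ) = n * Module.finrank (ZMod p) X := by
  rw [(LinearEquiv.ofBijective (BB_ev p σ) (BB_bij p σ)).finrank_eq, Module.finrank_pi_fintype,
    Finset.sum_const, Finset.card_univ, Fintype.card_fin, smul_eq_mul]

end Pool.Agent.H93.GS
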