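import Pool.Agent.H93.GS.Defs

/-!
ROW BC (80 lines).  Crossed homomorphisms of a presented group `G = F / ⟨⟨rel⟩⟩` (`F = FreeGroup (Fin n)`, `f : F → G` surjective with kernel the normal closure of the relators):
composition with `f` is a linear equivalence of `Z1 p σ` with `ZR = {δ ∈ Z1 p (σ.comp f) | ∀ i, δ (rel i) = 0}`.
Injective as `f` is surjective.  Surjective: let `δ ∈ ZR`.  `{g ∈ f.ker | δ g = 0}` is a normal subgroup of `F`: for `g, g'` in it `δ (g g') = δ g + σ (f g) (δ g') = 0`; for `u ∈ F`: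
`δ (u g u⁻¹) = δ u + σ(f u) (δ g + σ (f g) (δ u⁻¹)) = δ u + σ (f u) (δ u⁻¹) = δ (u u⁻¹) = 0` (`f g = 1`); it contains the relators (`f (rel i) = 1`), so `δ = 0` on `f.ker`.
If `f a = f b` then `a = b k`, `k ∈ f.ker`, `δ a = δ b + σ (f b) (δ k) = δ b`.  So `δ = δ' ∘ f`, and `δ'` is in `Z1 p σ`.
-/

set_option autoImplicit false

namespace Pool.Agent.H93.GS

/-- crossed homomorphisms of the free group that kill the relators -/
def ZR (p : ℕ) {n m : ℕ} (rel : Fin m → FreeGroup (Fin n)) {X : Type} [AddCommGroup X]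
    [Module (ZMod p) X] (σ : Representation (ZMod p) (FreeGroup (Fin n)) X) :
    Submodule (ZMod p) (Z1 p σ) where
  carrier := {δ | ∀ i, δ.1 (rel i) = 0}
  add_mem' := by
    intro a b ha hb i
    show a.1 (rel i) + b.1 (rel i) = 0
    rw [ha i, hb i, add_zero]
  zero_mem' := by
    intro i
    rfl
  smul_mem' := by
    intro c a ha i
    show c • a.1 (rel i) = 0
    rw [ha i, smul_zero]

/-- the kernel elements on which a crossed homomorphism vanishes -/
theorem bc_vanish (p : ℕ) {F G : Type} [Group F] [Group G] (f : F →* G) {X : Type}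
    [AddCommGroup X] [Module (ZMod p) X] (σ : Representation (ZMod p) G X) (R : Set F)
    (hk : f.ker = Subgroup.normalClosure R) (δ : F → X)
    (hδ : ∀ g h : F, δ (g * h) = δ g + σ (f g) (δ h)) (hR : ∀ r ∈ R, δ r = 0) :
    ∀ g ∈ f.ker, δ g = 0 := by
  have h1 : δ 1 = 0 := by
    have h := hδ 1 1
    rw [mul_one, map_one, map_one] at h
    have h2 : δ 1 = δ 1 + δ 1 := h
    exact (add_eq_left.1 h2.symm)
  let N : Subgroup F :=
    { carrier := {g | g ∈ f.ker ∧ δ g = 0}
      mul_mem' := by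
        rintro a b ⟨ha, ha0⟩ ⟨hb, hb0⟩
        refine ⟨mul_mem ha hb, ?_⟩
        rw [hδ, ha0, hb0, map_zero, add_zero]
      one_mem' := ⟨one_mem _, h1⟩
      inv_mem' := by
        rintro a ⟨ha, ha0⟩
        refine ⟨inv_mem ha, ?_⟩
        have h := hδ a a⁻¹
        rw [mul_inv_cancel, h1, ha0, zero_add, (MonoidHom.mem_ker).1 ha, map_one] at h
        exact h.symm }
  have hN : N.Normal := by
    constructor
    rintro g ⟨hg, hg0⟩ u
    refine ⟨(MonoidHom.normal_ker f).conj_mem g hg u, ?_⟩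
    have hg1 : f g = 1 := (MonoidHom.mem_ker).1 hg
    have h2 : δ (u * u⁻¹) = δ u + σ (f u) (δ u⁻¹) := hδ u u⁻¹
    rw [mul_inv_cancel, h1] at h2
    rw [mul_assoc, hδ, hδ, hg0, zero_add, hg1, map_one]
    exact h2.symm
  have hle : Subgroup.normalClosure R ≤ N := by
    apply Subgroup.normalClosure_le_normal
    intro r hr
    refine ⟨?_, hR r hr⟩
    rw [hk]
    exact Subgroup.subset_normalClosure hr
  intro g hg
  rw [hk] at hg
  exact (hle hg).2

theorem pres_equiv (p : ℕ) {n m : ℕ} {G : Type} [Group G] (f : FreeGroup (Fin n) →* G)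
    (hf : Function.Surjective f) (rel : Fin m → FreeGroup (Fin n))
    (hk : f.ker = Subgroup.normalClosure (Set.range rel)) {X : Type} [AddCommGroup X]
    [Module (ZMod p) X] (σ : Representation (ZMod p) G X) :
    Nonempty (Z1 p σ ≃ₗ[ZMod p] ZR p rel (σ.comp f)) := by
  have h1 : ∀ δ : Z1 p σ, δ.1 1 = 0 := by
    intro δ
    have h := δ.2 1 1
    rw [mul_one, map_one] at h
    have h2 : δ.1 1 = δ.1 1 + δ.1 1 := h
    exact (add_eq_left.1 h2.symm)
  have hmem : ∀ δ : Z1 p σ, (fun x => δ.1 (f x)) ∈ Z1 p (σ.comp f) := by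
    intro δ g h
    show δ.1 (f (g * h)) = δ.1 (f g) + σ (f g) (δ.1 (f h))
    rw [map_mul]
    exact δ.2 (f g) (f h)
  have hrel : ∀ i, f (rel i) = 1 := by
    intro i
    have : rel i ∈ f.ker := by
      rw [hk]
      exact Subgroup.subset_normalClosure ⟨i, rfl⟩
    exact (MonoidHom.mem_ker).1 this
  let Φ : Z1 p σ →ₗ[ZMod p] ZR p rel (σ.comp f) :=
    { toFun := fun δ => ⟨⟨fun x => δ.1 (f x), hmem δ⟩, by
        intro i
        show δ.1 (f (rel i)) = 0
        rw [hrel i, h1]⟩
      map_add' := by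
        intro a b
        rfl
      map_smul' := by
        intro c a
        rfl }
  refine ⟨LinearEquiv.ofBijective Φ ⟨?_, ?_⟩⟩
  · intro a b hab
    apply Subtype.ext
    funext x
    obtain ⟨y, rfl⟩ := hf x
    have := congrArg (fun z : ZR p rel (σ.comp f) => z.1.1 y) hab
    exact this
  · intro δ
    have hδ : ∀ g h, δ.1.1 (g * h) = δ.1.1 g + σ (f g) (δ.1.1 h) := fun g h => δ.1.2 g h
    have hv := bc_vanish p f σ (Set.range rel) hk δ.1.1 hδ (by
      rintro _ ⟨i, rfl⟩
      exact δ.2 i)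
    have hc : ∀ a b, f a = f b → δ.1.1 a = δ.1.1 b := by
      intro a b hab
      have hkk : b⁻¹ * a ∈ f.ker := by
        rw [MonoidHom.mem_ker, map_mul, map_inv, hab, inv_mul_cancel]
      have h3 := hδ b (b⁻¹ * a)
      rw [mul_inv_cancel_left, hv _ hkk, map_zero, add_zero] at h3
      exact h3
    let s : G → FreeGroup (Fin n) := Function.surjInv hf
    have hs : ∀ x, f (s x) = x := Function.surjInv_eq hf
    refine ⟨⟨fun x => δ.1.1 (s x), ?_⟩, ?_⟩
    · intro g h
      show δ.1.1 (s (g * h)) = δ.1.1 (s g) + σ g (δ.1.1 (s h))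
      have h4 : δ.1.1 (s (g * h)) = δ.1.1 (s g * s h) := by
        apply hc
        rw [hs, map_mul, hs, hs]
      rw [h4, hδ, hs]
    · apply Subtype.ext
      apply Subtype.ext
      funext x
      show δ.1.1 (s (f x)) = δ.1.1 x
      exact hc _ _ (hs _)

end Pool.Agent.H93.GS
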