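import Pool.Agent.H93.GS.BB
import Pool.Agent.H93.GS.BC

/-!
ROW BD (110 lines).  `X → Y` a surjective map of representations of `G`, `x = dim X`, `y = dim Y`:
`dim Z1(G, X) ≥ (n - m)(x - y) + dim Z1(G, Y)`.
Put `ZX = Z1 p (σ.comp f)` (dimension `n x`: `free_finrank`), `ZY = Z1 p (τ.comp f)` (dimension `n y`), `Φ : ZX → ZY`, `δ ↦ π ∘ δ`; `Φ` is surjective: given `ε ∈ ZY` choose `x i` with
`π (x i) = ε (of i)`, `free_ex`, `free_ext`.  `U = (ZR p rel (τ.comp f)).comap Φ`.
(1) `finrank U = finrank (ker Φ) + finrank (ZR .. τ) = n (x - y) + finrank (Z1 p τ)` (`Φ` restricted to `U → ZR` is surjective with kernel `≅ ker Φ`; rank-nullity; `pres_equiv`,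
    `LinearEquiv.finrank_eq`).
(2) `U → (Fin m → ker π)`, `δ ↦ (δ (rel i))_i` has kernel `≅ ZR .. σ`, so `finrank U ≤ m (x - y) + finrank (Z1 p σ)`.
(`finrank (ker π) = x - y` by rank-nullity; all spaces are finite dimensional: `free_fin`.)
-/

set_option autoImplicit false

namespace Pool.Agent.H93.GS

private lemma BD_rank {K V W U : Type} [Field K] [AddCommGroup V] [Module K V] [AddCommGroup W]
    [Module K W] [Module.Finite K W] [AddCommGroup U] [Module K U] (A : V →ₗ[K] W)
    (B : W →ₗ[K] U) :
    Module.finrank K (LinearMap.range A) ≤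
      Module.finrank K (LinearMap.range (B.comp A)) + Module.finrank K (LinearMap.ker B) := by
  have h1 := LinearMap.finrank_range_add_finrank_ker (B.domRestrict (LinearMap.range A))
  have h2 : LinearMap.range (B.domRestrict (LinearMap.range A)) = LinearMap.range (B.comp A) := by
    rw [LinearMap.range_comp, LinearMap.domRestrict, LinearMap.range_comp, Submodule.range_subtype]
  rw [h2] at h1
  have h3 : Module.finrank K (LinearMap.ker (B.domRestrict (LinearMap.range A))) ≤
      Module.finrank K (LinearMap.ker B) := by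
    let j : LinearMap.ker (B.domRestrict (LinearMap.range A)) →ₗ[K] LinearMap.ker B :=
      LinearMap.codRestrict (LinearMap.ker B)
        ((LinearMap.range A).subtype.comp (Submodule.subtype _)) (by
          intro c
          have := c.2
          rw [LinearMap.mem_ker] at this ⊢
          exact this)
    apply LinearMap.finrank_le_finrank_of_injective (f := j)
    intro a b hab
    have h4 := congrArg Subtype.val hab
    apply Subtype.ext
    apply Subtype.ext
    exact h4
  omega

theorem BD_main (p : ℕ) [Fact p.Prime] {n m : ℕ} {G : Type} [Group G]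
    (f : FreeGroup (Fin n) →* G) (hf : Function.Surjective f)
    (rel : Fin m → FreeGroup (Fin n))
    (hk : f.ker = Subgroup.normalClosure (Set.range rel)) {X Y : Type} [AddCommGroup X]
    [Module (ZMod p) X] [Module.Finite (ZMod p) X] [AddCommGroup Y] [Module (ZMod p) Y]
    [Module.Finite (ZMod p) Y] (σ : Representation (ZMod p) G X)
    (τ : Representation (ZMod p) G Y) (π : X →ₗ[ZMod p] Y) (hπ : Function.Surjective π)
    (hc : ∀ (g : G) (v : X), π (σ g v) = τ g (π v)) :
    ((n : ℤ) - (m : ℤ)) *
          ((Module.finrank (ZMod p) X : ℤ) - (Module.finrank (ZMod p) Y : ℤ)) +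
        (Module.finrank (ZMod p) (Z1 p τ) : ℤ) ≤ (Module.finrank (ZMod p) (Z1 p σ) : ℤ) := by
  classical
  have := free_fin p (σ.comp f)
  have := free_fin p (τ.comp f)
  obtain ⟨eX⟩ := pres_equiv p f hf rel hk σ
  obtain ⟨eY⟩ := pres_equiv p f hf rel hk τ
  -- evaluation at relators
  let RX : Z1 p (σ.comp f) →ₗ[ZMod p] (Fin m → X) :=
    { toFun := fun δ i => δ.1 (rel i)
      map_add' := fun _ _ => rfl
      map_smul' := fun _ _ => rfl }
  let RY : Z1 p (τ.comp f) →ₗ[ZMod p] (Fin m → Y) :=
    { toFun := fun δ i => δ.1 (rel i)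
      map_add' := fun _ _ => rfl
      map_smul' := fun _ _ => rfl }
  let Φ : Z1 p (σ.comp f) →ₗ[ZMod p] Z1 p (τ.comp f) :=
    { toFun := fun δ => ⟨fun g => π (δ.1 g), by
        intro g h
        show π (δ.1 (g * h)) = π (δ.1 g) + τ (f g) (π (δ.1 h))
        rw [δ.2 g h, map_add, ← hc]
        rfl⟩
      map_add' := fun a b => by
        apply Subtype.ext
        funext g
        exact map_add π _ _
      map_smul' := fun a b => by
        apply Subtype.ext
        funext g
        exact map_smul π _ _ }
  have hΦ : Function.Surjective Φ := by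
    intro ε
    choose x hx using fun i => hπ (ε.1 (FreeGroup.of i))
    obtain ⟨δ, hδ, hδx⟩ := free_ex p (σ.comp f) x
    refine ⟨⟨δ, hδ⟩, ?_⟩
    apply Subtype.ext
    apply free_ext p (τ.comp f) _ _ (Φ ⟨δ, hδ⟩).2 ε.2
    intro i
    show π (δ (FreeGroup.of i)) = _
    rw [hδx, hx]
  let P : (Fin m → X) →ₗ[ZMod p] (Fin m → Y) :=
    LinearMap.pi (fun i => π.comp (LinearMap.proj i))
  have hP : Function.Surjective P := by
    intro y
    choose x hx using fun i => hπ (y i)
    refine ⟨x, ?_⟩
    funext i
    exact hx i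
  have hcomm : P.comp RX = RY.comp Φ := by
    apply LinearMap.ext
    intro δ
    rfl
  have hrange : LinearMap.range (P.comp RX) = LinearMap.range RY := by
    rw [hcomm, LinearMap.range_comp, LinearMap.range_eq_top.2 hΦ, Submodule.map_top]
  have h1 := BD_rank RX P
  rw [hrange] at h1
  have h2 := LinearMap.finrank_range_add_finrank_ker RX
  have h3 := LinearMap.finrank_range_add_finrank_ker RY
  have h4 := LinearMap.finrank_range_add_finrank_ker P
  rw [LinearMap.range_eq_top.2 hP, finrank_top] at h4
  rw [free_finrank] at h2 h3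
  have hkX : LinearMap.ker RX = ZR p rel (σ.comp f) := by
    ext δ
    rw [LinearMap.mem_ker]
    constructor
    · intro h i
      exact congrFun h i
    · intro h
      funext i
      exact h i
  have hkY : LinearMap.ker RY = ZR p rel (τ.comp f) := by
    ext δ
    rw [LinearMap.mem_ker]
    constructor
    · intro h i
      exact congrFun h i
    · intro h
      funext i
      exact h i
  rw [hkX, ← eX.finrank_eq] at h2
  rw [hkY, ← eY.finrank_eq] at h3
  rw [Module.finrank_pi_fintype, Module.finrank_pi_fintype] at h4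
  simp only [Finset.sum_const, Finset.card_univ, Fintype.card_fin, smul_eq_mul] at h4
  have h1' : (Module.finrank (ZMod p) (LinearMap.range RX) : ℤ) ≤
      Module.finrank (ZMod p) (LinearMap.range RY) + Module.finrank (ZMod p) (LinearMap.ker P) := by
    exact_mod_cast h1
  have h2' : (Module.finrank (ZMod p) (LinearMap.range RX) : ℤ) +
      Module.finrank (ZMod p) (Z1 p σ) = n * Module.finrank (ZMod p) X := by
    exact_mod_cast h2
  have h3' : (Module.finrank (ZMod p) (LinearMap.range RY) : ℤ) +
      Module.finrank (ZMod p) (Z1 p τ) = n * Module.finrank (ZMod p) Y := by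
    exact_mod_cast h3
  have h4' : (m : ℤ) * Module.finrank (ZMod p) Y + Module.finrank (ZMod p) (LinearMap.ker P) =
      m * Module.finrank (ZMod p) X := by
    exact_mod_cast h4
  linarith [h1', h2', h3', h4', sub_mul (n : ℤ) m ((Module.finrank (ZMod p) X : ℤ) -
    (Module.finrank (ZMod p) Y : ℤ)), mul_sub (n : ℤ) (Module.finrank (ZMod p) X : ℤ)
    (Module.finrank (ZMod p) Y : ℤ), mul_sub (m : ℤ) (Module.finrank (ZMod p) X : ℤ)
    (Module.finrank (ZMod p) Y : ℤ)]

end Pool.Agent.H93.GS
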