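import Pool.Agent.H93.GS.Defs

/-!
ROW VB (70 lines).  `V p S k` is stable under right and left translations; the representation `rV p S k` of `H` on it.
* `Inv p S` is stable: `(Rt h f)(x s y) = f (x s (y h)) = f (x (y h))`, `(Lt h f)(x s y) = f ((h x) s y)`.
* `Rt_mem_V` by induction on `k` (all `h`, `f`): `Dr g (Rt h f) = Rt h (Dr (h⁻¹ g h) f)` (both at `x`: `f (x g h) - f (x h)`).
* `Lt_mem_V` by induction on `k`: `Dr g (Lt h f) = Lt h (Dr g f)`.
* `Dr_El`: `Dr g (El h f) = El h (Dr g f)` (funext, `mul_assoc`, `ring`/`abel`).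
-/

set_option autoImplicit false

namespace Pool.Agent.H93.GS

theorem Rt_mem_Inv (p : ℕ) {H : Type} [Group H] (S : Set H) (h : H) (f : H → ZMod p)
    (hf : f ∈ Inv p S) : Rt p h f ∈ Inv p S := by
  rw [mem_Inv] at hf ⊢
  intro s hs x y
  rw [Rt_apply, Rt_apply, mul_assoc (x * s) y h, mul_assoc x y h]
  exact hf s hs x (y * h)

theorem Lt_mem_Inv (p : ℕ) {H : Type} [Group H] (S : Set H) (h : H) (f : H → ZMod p)
    (hf : f ∈ Inv p S) : Lt p h f ∈ Inv p S := by
  rw [mem_Inv] at hf ⊢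
  intro s hs x y
  have := hf s hs (h * x) y
  rw [Lt_apply, Lt_apply, ← mul_assoc, ← mul_assoc, ← mul_assoc]
  exact this

theorem Dr_mem_Inv (p : ℕ) {H : Type} [Group H] (S : Set H) (h : H) (f : H → ZMod p)
    (hf : f ∈ Inv p S) : Dr p h f ∈ Inv p S := by
  exact Submodule.sub_mem _ (Rt_mem_Inv p S h f hf) hf

theorem El_mem_Inv (p : ℕ) {H : Type} [Group H] (S : Set H) (h : H) (f : H → ZMod p)
    (hf : f ∈ Inv p S) : El p h f ∈ Inv p S := by
  exact Submodule.sub_mem _ (Lt_mem_Inv p S h f hf) hf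

theorem Rt_mem_V (p : ℕ) {H : Type} [Group H] (S : Set H) (k : ℕ) (h : H) (f : H → ZMod p)
    (hf : f ∈ V p S k) : Rt p h f ∈ V p S k := by
  induction k generalizing h f with
  | zero =>
    rw [mem_V_zero] at hf ⊢
    rw [hf, map_zero]
  | succ k ih =>
    rw [mem_V_succ] at hf ⊢
    refine ⟨Rt_mem_Inv p S h f hf.1, fun g => ?_⟩
    have h1 : Dr p g (Rt p h f) = Rt p h (Dr p (h⁻¹ * g * h) f) := by
      funext x
      rw [Dr_apply, Rt_apply, Rt_apply, Rt_apply, Dr_apply]
      congr 2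
      group
    rw [h1]
    exact ih h _ (hf.2 _)

theorem Lt_mem_V (p : ℕ) {H : Type} [Group H] (S : Set H) (k : ℕ) (h : H) (f : H → ZMod p)
    (hf : f ∈ V p S k) : Lt p h f ∈ V p S k := by
  induction k generalizing h f with
  | zero =>
    rw [mem_V_zero] at hf ⊢
    rw [hf, map_zero]
  | succ k ih =>
    rw [mem_V_succ] at hf ⊢
    refine ⟨Lt_mem_Inv p S h f hf.1, fun g => ?_⟩
    have h1 : Dr p g (Lt p h f) = Lt p h (Dr p g f) := by
      funext x
      rw [Dr_apply, Lt_apply, Lt_apply, Lt_apply, Dr_apply, mul_assoc]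
    rw [h1]
    exact ih h _ (hf.2 _)

theorem Dr_El (p : ℕ) {H : Type} [Group H] (g h : H) (f : H → ZMod p) :
    Dr p g (El p h f) = El p h (Dr p g f) := by
  funext x
  rw [Dr_apply, El_apply, El_apply, El_apply, Dr_apply, Dr_apply, mul_assoc]
  abel

/-- right translation as a representation on `V p S k` -/
def rV (p : ℕ) {H : Type} [Group H] (S : Set H) (k : ℕ) :
    Representation (ZMod p) H (V p S k) where
  toFun h := (Rt p h).restrict (fun f hf => Rt_mem_V p S k h f hf)
  map_one' := by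
    ext f
    simp [Rt_apply]
  map_mul' g h := by
    apply LinearMap.ext
    intro f
    apply Subtype.ext
    exact Rt_mul p g h f.1

theorem rV_coe (p : ℕ) {H : Type} [Group H] (S : Set H) (k : ℕ) (h : H) (f : V p S k) :
    ((rV p S k h f : V p S k) : H → ZMod p) = Rt p h f.1 := rfl

end Pool.Agent.H93.GS
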