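import Pool.Agent.H93.GS.VA
import Pool.Agent.H93.GS.VB

/-!
ROW VD (70 lines).  If `H` is finitely generated then `V p S k` is finite dimensional, and `Z1 p ρ` is finite dimensional for every
finite dimensional `ρ`.
-/

set_option autoImplicit false

namespace Pool.Agent.H93.GS

theorem V_fin (p : ℕ) [Fact p.Prime] {H : Type} [Group H] [Group.FG H] (S : Set H) (k : ℕ) :
    Module.Finite (ZMod p) (V p S k) := by
  obtain ⟨X, hX, hXf⟩ := Group.fg_iff.1 (inferInstance : Group.FG H)
  induction k with
  | zero =>
    have h0 : V p S 0 = ⊥ := rfl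
    rw [h0]
    infer_instance
  | succ k ih =>
    have : Finite X := hXf
    have : Module.Finite (ZMod p) (V p S k) := ih
    let φ : V p S (k + 1) →ₗ[ZMod p] ZMod p × (X → V p S k) :=
      LinearMap.prod ((LinearMap.proj (1 : H)).comp (V p S (k + 1)).subtype)
        (LinearMap.pi fun x => (Dr p x.1).restrict
          (fun f hf => ((mem_V_succ p S k f).1 hf).2 x.1))
    refine Module.Finite.of_injective φ ?_
    rw [injective_iff_map_eq_zero]
    intro f hf
    have h1 : f.1 1 = 0 := congrArg Prod.fst hf
    have h2 : ∀ x ∈ X, Dr p x f.1 = 0 := by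
      intro x hx
      have h3 := congrFun (congrArg Prod.snd hf) ⟨x, hx⟩
      exact congrArg Subtype.val h3
    let K : Subgroup H :=
      { carrier := {g | Rt p g f.1 = f.1}
        mul_mem' := by
          intro a b ha hb
          show Rt p (a * b) f.1 = f.1
          rw [Rt_mul, show Rt p b f.1 = f.1 from hb, show Rt p a f.1 = f.1 from ha]
        one_mem' := by
          show Rt p 1 f.1 = f.1
          funext x
          simp [Rt_apply]
        inv_mem' := by
          intro a ha
          have h : Rt p a f.1 = f.1 := ha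
          show Rt p a⁻¹ f.1 = f.1
          calc Rt p a⁻¹ f.1 = Rt p a⁻¹ (Rt p a f.1) := by rw [h]
            _ = Rt p (a⁻¹ * a) f.1 := by rw [Rt_mul]
            _ = f.1 := by
              funext x
              simp [Rt_apply] }
    have hK : K = ⊤ := by
      rw [eq_top_iff, ← hX, Subgroup.closure_le]
      intro x hx
      exact (Dr_eq_zero p x f.1).1 (h2 x hx)
    apply Subtype.ext
    funext g
    have hg : g ∈ K := by rw [hK]; exact Subgroup.mem_top g
    have h4 : Rt p g f.1 = f.1 := hg
    have h5 := congrFun h4 1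
    rw [Rt_apply, one_mul, h1] at h5
    exact h5

theorem Z1_fin (p : ℕ) [Fact p.Prime] {H : Type} [Group H] [Group.FG H] {M : Type}
    [AddCommGroup M] [Module (ZMod p) M] [Module.Finite (ZMod p) M]
    (ρ : Representation (ZMod p) H M) : Module.Finite (ZMod p) (Z1 p ρ) := by
  obtain ⟨X, hX, hXf⟩ := Group.fg_iff.1 (inferInstance : Group.FG H)
  have : Finite X := hXf
  let φ : Z1 p ρ →ₗ[ZMod p] (X → M) :=
    LinearMap.pi fun x => (LinearMap.proj x.1).comp (Z1 p ρ).subtype
  refine Module.Finite.of_injective φ ?_
  rw [injective_iff_map_eq_zero]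
  intro δ hδ
  have hc : ∀ g h : H, δ.1 (g * h) = δ.1 g + ρ g (δ.1 h) := δ.2
  have h1 : δ.1 1 = 0 := by
    have h := hc 1 1
    rw [mul_one, map_one] at h
    have h2 : δ.1 1 = δ.1 1 + δ.1 1 := h
    exact (left_eq_add.1 h2)
  let K : Subgroup H :=
    { carrier := {g | δ.1 g = 0}
      mul_mem' := by
        intro a b ha hb
        show δ.1 (a * b) = 0
        rw [hc, show δ.1 a = 0 from ha, show δ.1 b = 0 from hb, map_zero, add_zero]
      one_mem' := h1
      inv_mem' := by
        intro a ha
        show δ.1 a⁻¹ = 0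
        have h := hc a⁻¹ a
        rw [inv_mul_cancel, h1, show δ.1 a = 0 from ha, map_zero, add_zero] at h
        exact h.symm }
  have hK : K = ⊤ := by
    rw [eq_top_iff, ← hX, Subgroup.closure_le]
    intro x hx
    exact congrFun hδ ⟨x, hx⟩
  apply Subtype.ext
  funext g
  have hg : g ∈ K := by rw [hK]; exact Subgroup.mem_top g
  exact hg

end Pool.Agent.H93.GS
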