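import Pool.Agent.H93.GS.BA
import Pool.Agent.H93.GS.VD

/-!
ROW BE (130 lines).  Shapiro for crossed homomorphisms: `dim Z1(G, CoI M) = dim Z1(H, M) + (j - 1) dim M`, `j = H.index`.
Let `B = {b : G → M | ∀ h ∈ H, g ∈ G, b (h g) = b h + ρ h (b g)}` (a submodule).
* `Z1 p (coR p H ρ) ≃ B`: `δ ↦ b`, `b g = (δ g) 1`.  `δ (x g) = δ x + x·(δ g)` at `1`: `b (x g) = b x + (δ g) x`, so `(δ g) x = b (x g) - b x`.  `δ 1 = 0`, so `b 1 = 0`, and `δ g ∈ CoI`
  at `x = 1`: `b (h g) - b h = (δ g)(h) = ρ h ((δ g) 1) = ρ h (b g)`.  Conversely for `b ∈ B` put `(δ g) x = b (x g) - b x`; in `CoI`: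
  `b (h x g) - b (h x) = ρ h (b (x g) - b x)`; cocycle: `b (x g g') - b x = (b (x g) - b x) + (b (x g g') - b (x g))`.
* `B ≃ Z1 p ρ × ({q : Q // q ≠ [1]} → M)`, `b ↦ (b|_H, (b (s q))_q)`, with `Q = Quotient (QuotientGroup.rightRel H)`, `s q = q.out` (see BA): `b (h s q) = b h + ρ h (b (s q))`
  and for `q = [1]` `s q ∈ H`, so `b (s q)` is given by `b|_H`.  Inverse: `b g = c h + ρ h (v q)` for `g = h * s q`, `q ≠ [1]`, and `b g = c g` for `g ∈ H`.
  (Instead of the equivalence two injective maps / a short exact sequence are enough.)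
* dimension: `Module.finrank_prod`, `card {q // q ≠ [1]} = H.index - 1`, `Z1_fin` (`H` is finitely generated: `Subgroup.fg_of_index_ne_zero`).
-/

set_option autoImplicit false

namespace Pool.Agent.H93.GS

/-- functions `b` with `b (h g) = b h + ρ h (b g)` for `h ∈ H` -/
def BE_B (p : ℕ) {G : Type} [Group G] (H : Subgroup G) {M : Type} [AddCommGroup M]
    [Module (ZMod p) M] (ρ : Representation (ZMod p) H M) : Submodule (ZMod p) (G → M) where
  carrier := {b | ∀ (h : H) (g : G), b ((h : G) * g) = b (h : G) + ρ h (b g)}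
  add_mem' := by
    intro a b ha hb h g
    simp only [Pi.add_apply, map_add]
    rw [ha h g, hb h g]
    abel
  zero_mem' := by
    intro h g
    simp
  smul_mem' := by
    intro c a ha h g
    simp only [Pi.smul_apply, map_smul]
    rw [ha h g, smul_add]

theorem BE_B_one (p : ℕ) {G : Type} [Group G] (H : Subgroup G) {M : Type} [AddCommGroup M]
    [Module (ZMod p) M] (ρ : Representation (ZMod p) H M) {b : G → M} (hb : b ∈ BE_B p H ρ) :
    b 1 = 0 := by
  have h1 := hb 1 1
  rw [OneMemClass.coe_one, mul_one, map_one, Module.End.one_apply] at h1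
  exact left_eq_add.1 h1

/-- evaluation of a crossed homomorphism at `1` -/
def BE_T (p : ℕ) {G : Type} [Group G] (H : Subgroup G) {M : Type} [AddCommGroup M]
    [Module (ZMod p) M] (ρ : Representation (ZMod p) H M) :
    Z1 p (coR p H ρ) →ₗ[ZMod p] BE_B p H ρ where
  toFun δ := ⟨fun g => (δ.1 g).1 1, by
    intro h g
    show (δ.1 (h * g)).1 1 = (δ.1 h).1 1 + ρ h ((δ.1 g).1 1)
    rw [δ.2 h g]
    show (δ.1 h).1 1 + (δ.1 g).1 (1 * h) = _
    rw [one_mul, ← (δ.1 g).2 h 1, mul_one]⟩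
  map_add' a b := rfl
  map_smul' c a := rfl

theorem BE_T_eq (p : ℕ) {G : Type} [Group G] (H : Subgroup G) {M : Type} [AddCommGroup M]
    [Module (ZMod p) M] (ρ : Representation (ZMod p) H M) (δ : Z1 p (coR p H ρ)) (g x : G) :
    (δ.1 g).1 x = (δ.1 (x * g)).1 1 - (δ.1 x).1 1 := by
  have h1 : (δ.1 (x * g)).1 1 = (δ.1 x).1 1 + (δ.1 g).1 (1 * x) := by
    rw [δ.2 x g]
    rfl
  rw [h1, one_mul]
  abel

theorem BE_T_bij (p : ℕ) {G : Type} [Group G] (H : Subgroup G) {M : Type} [AddCommGroup M]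
    [Module (ZMod p) M] (ρ : Representation (ZMod p) H M) : Function.Bijective (BE_T p H ρ) := by
  constructor
  · rw [← LinearMap.ker_eq_bot, LinearMap.ker_eq_bot']
    intro δ hδ
    have h1 : ∀ g, (δ.1 g).1 1 = 0 := fun g => congrFun (congrArg Subtype.val hδ) g
    apply Subtype.ext
    funext g
    apply Subtype.ext
    funext x
    rw [BE_T_eq, h1, h1, sub_zero]
    rfl
  · rintro ⟨b, hb⟩
    have h0 := BE_B_one p H ρ hb
    refine ⟨⟨fun g => ⟨fun x => b (x * g) - b x, ?_⟩, ?_⟩, ?_⟩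
    · intro h x
      show b (h * x * g) - b (h * x) = ρ h (b (x * g) - b x)
      rw [mul_assoc, hb h (x * g), hb h x, map_sub]
      abel
    · intro g g'
      apply Subtype.ext
      funext x
      show b (x * (g * g')) - b x = (b (x * g) - b x) + (b (x * g * g') - b (x * g))
      rw [mul_assoc]
      abel
    · apply Subtype.ext
      funext g
      show b (1 * g) - b 1 = b g
      rw [h0, one_mul, sub_zero]

/-- restriction to `H` and to a transversal -/
def BE_R (p : ℕ) {G : Type} [Group G] (H : Subgroup G) {M : Type} [AddCommGroup M]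
    [Module (ZMod p) M] (ρ : Representation (ZMod p) H M) (S : Set G) :
    BE_B p H ρ →ₗ[ZMod p] Z1 p ρ × ({s : S // ¬ s.1 = 1} → M) where
  toFun b := (⟨fun h => b.1 h, by
    intro h h'
    exact b.2 h h'⟩, fun s => b.1 s.1.1)
  map_add' a b := rfl
  map_smul' c a := rfl

theorem BE_R_bij (p : ℕ) {G : Type} [Group G] (H : Subgroup G) {M : Type} [AddCommGroup M]
    [Module (ZMod p) M] (ρ : Representation (ZMod p) H M) (S : Set G)
    (hS : Subgroup.IsComplement (H : Set G) S) (h1 : (1 : G) ∈ S) :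
    Function.Bijective (BE_R p H ρ S) := by
  classical
  constructor
  · rw [← LinearMap.ker_eq_bot, LinearMap.ker_eq_bot']
    intro b hb
    have e1 : ∀ h : H, b.1 h = 0 := fun h => congrFun (congrArg Subtype.val (congrArg Prod.fst hb)) h
    have e2 : ∀ s : {s : S // ¬ s.1 = 1}, b.1 s.1.1 = 0 := fun s => congrFun (congrArg Prod.snd hb) s
    have e3 : ∀ s : S, b.1 s = 0 := by
      intro s
      by_cases hs : s.1 = 1
      · rw [hs]
        exact BE_B_one p H ρ b.2
      · exact e2 ⟨s, hs⟩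
    apply Subtype.ext
    funext g
    have e4 := hS.equiv_fst_mul_equiv_snd g
    rw [← e4]
    have e5 := b.2 (hS.equiv g).1 (hS.equiv g).2
    rw [e5, e1, e3, map_zero, add_zero]
    rfl
  · rintro ⟨⟨c, hc⟩, v⟩
    have hc1 : c 1 = 0 := by
      have h2 := hc 1 1
      rw [mul_one, map_one, Module.End.one_apply] at h2
      exact left_eq_add.1 h2
    obtain ⟨w, hw⟩ : ∃ w : S → M, w = fun s => if hs : s.1 = 1 then 0 else v ⟨s, hs⟩ := ⟨_, rfl⟩
    have hw1 : w ⟨1, h1⟩ = 0 := by
      rw [hw]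
      exact dif_pos rfl
    have hw2 : ∀ (s : S) (hs : ¬ s.1 = 1), w s = v ⟨s, hs⟩ := by
      intro s hs
      rw [hw]
      exact dif_neg hs
    have hone : ∀ h : H, hS.equiv (h : G) = (h, ⟨1, h1⟩) := by
      intro h
      have h2 := hS.equiv_mul_left h 1
      rw [mul_one, hS.equiv_one H.one_mem h1] at h2
      rw [h2]
      exact Prod.ext (Subtype.ext (mul_one _)) rfl
    obtain ⟨b, hb⟩ : ∃ b : G → M, b = fun g => c (hS.equiv g).1 + ρ (hS.equiv g).1 (w (hS.equiv g).2) :=
      ⟨_, rfl⟩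
    have hbH : ∀ h : H, b h = c h := by
      intro h
      rw [hb]
      show c (hS.equiv h).1 + ρ (hS.equiv h).1 (w (hS.equiv h).2) = c h
      rw [hone, hw1, map_zero, add_zero]
    have hbB : b ∈ BE_B p H ρ := by
      intro h g
      rw [hbH, hb]
      show c (hS.equiv (h * g)).1 + ρ (hS.equiv (h * g)).1 (w (hS.equiv (h * g)).2) =
        c h + ρ h (c (hS.equiv g).1 + ρ (hS.equiv g).1 (w (hS.equiv g).2))
      rw [hS.equiv_mul_left h g]
      show c (h * (hS.equiv g).1) + ρ (h * (hS.equiv g).1) (w (hS.equiv g).2) = _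
      rw [hc, map_mul, map_add, Module.End.mul_apply, add_assoc]
    refine ⟨⟨b, hbB⟩, Prod.ext (Subtype.ext (funext hbH)) (funext fun s => ?_)⟩
    show b s.1.1 = v s
    rw [hb]
    have h3 : hS.equiv (s.1.1 : G) = (1, s.1) := by
      have h4 := hS.equiv.apply_symm_apply ((1 : H), s.1)
      have h5 : (hS.equiv.symm ((1 : H), s.1) : G) = s.1.1 := by
        rw [hS.equiv_symm_apply]
        exact one_mul _
      rw [h5] at h4
      exact h4
    show c (hS.equiv s.1.1).1 + ρ (hS.equiv s.1.1).1 (w (hS.equiv s.1.1).2) = v s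
    rw [h3]
    show c 1 + ρ 1 (w s.1) = v s
    rw [hc1, map_one, Module.End.one_apply, zero_add, hw2 s.1 s.2]

theorem BE_main (p : ℕ) [Fact p.Prime] {G : Type} [Group G] [Group.FG G] (H : Subgroup G)
    [H.FiniteIndex] {M : Type} [AddCommGroup M] [Module (ZMod p) M]
    [Module.Finite (ZMod p) M] (ρ : Representation (ZMod p) H M) :
    Module.finrank (ZMod p) (Z1 p (coR p H ρ)) =
      Module.finrank (ZMod p) (Z1 p ρ) + (H.index - 1) * Module.finrank (ZMod p) M := by
  classical
  obtain ⟨S, hS, h1⟩ := H.exists_isComplement_right 1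
  have e1 := (LinearEquiv.ofBijective _ (BE_T_bij p H ρ)).finrank_eq
  have e2 := (LinearEquiv.ofBijective _ (BE_R_bij p H ρ S hS h1)).finrank_eq
  have hfS : Finite S := hS.finite_right
  have := Fintype.ofFinite S
  have hH : Module.Finite (ZMod p) (Z1 p ρ) := Z1_fin p ρ
  have hcard : Fintype.card {s : S // ¬ s.1 = 1} = H.index - 1 := by
    rw [Fintype.card_subtype_compl, ← hS.card_right, Nat.card_eq_fintype_card]
    congr 1
    rw [Fintype.card_eq_one_iff]
    exact ⟨⟨⟨1, h1⟩, rfl⟩, fun s => Subtype.ext (Subtype.ext s.2)⟩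
  rw [e1, e2, Module.finrank_prod, Module.finrank_pi_fintype, Finset.sum_const, Finset.card_univ,
    hcard, smul_eq_mul]

end Pool.Agent.H93.GS
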