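import Pool.Agent.H93.GS.Defs

/-!
ROW BF (60 lines).  Trivial action: `Z1 p σ` is the space of homomorphisms `Additive H →+ Y`, `Y ≃ (Fin y → ZMod p)` (a basis), so `Z1 p σ ≃ (Fin y → (Additive H →+ ZMod p))`,
`finrank = y * finrank (Additive H →+ ZMod p)` (`Module.finrank_pi_fintype` or `finrank_pi`-like for `Fin y → V`; both sides are `0` if `V` is infinite dimensional and `y > 0`; the
hypothesis `Group.FG H` makes it finite dimensional: the value on a finite generating set determines a homomorphism).
-/

set_option autoImplicit false

namespace Pool.Agent.H93.GS

theorem BF_fin (p : ℕ) [Fact p.Prime] (H : Type) [Group H] [Group.FG H] :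
    Module.Finite (ZMod p) (Additive H →+ ZMod p) := by
  obtain ⟨X, hX, hXf⟩ := Group.fg_iff.1 (inferInstance : Group.FG H)
  have : Finite X := hXf
  let φ : (Additive H →+ ZMod p) →ₗ[ZMod p] (X → ZMod p) :=
    { toFun := fun u x => u (Additive.ofMul x.1)
      map_add' := fun u v => rfl
      map_smul' := fun c u => rfl }
  refine Module.Finite.of_injective φ ?_
  rw [← LinearMap.ker_eq_bot, LinearMap.ker_eq_bot']
  intro u hu
  ext h
  have hmem : Additive.toMul h ∈ Subgroup.closure X := by
    rw [hX]
    exact Subgroup.mem_top _
  have key : ∀ g : H, g ∈ Subgroup.closure X → u (Additive.ofMul g) = 0 := by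
    intro g hg
    induction hg using Subgroup.closure_induction with
    | mem x hx => exact congrFun hu ⟨x, hx⟩
    | one => exact map_zero u
    | mul a b _ _ ha hb => rw [ofMul_mul, map_add, ha, hb, add_zero]
    | inv a _ ha => rw [ofMul_inv, map_neg, ha, neg_zero]
  exact key _ hmem

theorem BF_main (p : ℕ) [Fact p.Prime] {H : Type} [Group H] [Group.FG H] {Y : Type}
    [AddCommGroup Y] [Module (ZMod p) Y] [Module.Finite (ZMod p) Y]
    (σ : Representation (ZMod p) H Y) (hσ : ∀ g v, σ g v = v) :
    Module.finrank (ZMod p) (Z1 p σ) =
      Module.finrank (ZMod p) (Additive H →+ ZMod p) * Module.finrank (ZMod p) Y := by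
  have hfin := BF_fin p H
  let b := Module.finBasis (ZMod p) Y
  let e : Z1 p σ ≃ₗ[ZMod p] (Fin (Module.finrank (ZMod p) Y) → (Additive H →+ ZMod p)) :=
    { toFun := fun δ i =>
        { toFun := fun h => b.repr (δ.1 (Additive.toMul h)) i
          map_zero' := by
            have h1 := δ.2 1 1
            rw [hσ, mul_one] at h1
            have h2 : δ.1 1 = 0 := by
              have := h1
              rwa [left_eq_add] at this
            show b.repr (δ.1 (Additive.toMul 0)) i = 0
            rw [toMul_zero, h2]
            simp
          map_add' := by
            intro x y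
            show b.repr (δ.1 (Additive.toMul (x + y))) i = _
            rw [toMul_add, δ.2 _ _, hσ]
            simp }
      map_add' := by
        intro δ δ'
        funext i
        ext h
        simp
      map_smul' := by
        intro c δ
        funext i
        ext h
        simp
      invFun := fun v =>
        ⟨fun h => ∑ i, v i (Additive.ofMul h) • b i, by
          intro g h
          simp only [hσ]
          rw [← Finset.sum_add_distrib]
          apply Finset.sum_congr rfl
          intro i _
          rw [ofMul_mul, map_add, add_smul]⟩
      left_inv := by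
        intro δ
        apply Subtype.ext
        funext h
        show ∑ i, b.repr (δ.1 h) i • b i = δ.1 h
        exact b.sum_repr _
      right_inv := by
        intro v
        funext i
        ext h
        show b.repr (∑ j, v j (Additive.ofMul (Additive.toMul h)) • b j) i = v i h
        simp [Finsupp.single_apply] }
  rw [e.finrank_eq, Module.finrank_pi_fintype]
  simp [mul_comm]

end Pool.Agent.H93.GS
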