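import Pool.Agent.H93.GS.BA
import Pool.Agent.H93.GS.BD
import Pool.Agent.H93.GS.BE
import Pool.Agent.H93.GS.BF

/-!
ROW BG (80 lines).  The Golod-Shafarevich datum of a subgroup `H` of finite index `j` in `G = ⟨n generators | m relators⟩`, `d = dim Hom(H, ZMod p)`:  `(d, d - 1 + j (m - n + 1))`.
Given `M, ρ, M'` as in `GSD`: `Y = M ⧸ M'` with the trivial action `σ g v = v` (`Representation.trivial`, or `1`), `π = M'.mkQ`, `π (ρ h v) = π v` by the second hypothesis.  `q = finrank Y = finrank M - finrank M'`.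
`CoI_surj` gives `Φ : CoI ρ → CoI σ`; `BD_main` for `coR ρ`, `coR σ`, `Φ` (`CoI_fin`, `CoI_finrank`):
`(n - m) (j dim M - j q) + finrank Z1(coR σ) ≤ finrank Z1(coR ρ)`; `BE_main` twice and `BF_main` for `H`, `σ`:
`finrank Z1(coR σ) = d q + (j-1) q`, `finrank Z1(coR ρ) = finrank Z1(ρ) + (j-1) finrank M`.
So `finrank Z1(ρ) ≥ (n - m) j dim M' + d q + (j-1) q - (j-1)(q + dim M') = d dim M - (d - 1 + j (m-n+1)) dim M'` (`j ≥ 1`, cast `H.index - 1`).
`G` is finitely generated (`Group.fg_of_surjective`), `H` as well (`Subgroup.fg_of_index_ne_zero`).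
-/

set_option autoImplicit false

namespace Pool.Agent.H93.GS

theorem BG_main (p : ℕ) [Fact p.Prime] {n m : ℕ} {G : Type} [Group G]
    (f : FreeGroup (Fin n) →* G) (hf : Function.Surjective f)
    (rel : Fin m → FreeGroup (Fin n))
    (hk : f.ker = Subgroup.normalClosure (Set.range rel)) (H : Subgroup G) [H.FiniteIndex] :
    GSD p H (Module.finrank (ZMod p) (Additive H →+ ZMod p) : ℤ)
      ((Module.finrank (ZMod p) (Additive H →+ ZMod p) : ℤ) - 1 +
        (H.index : ℤ) * ((m : ℤ) - (n : ℤ) + 1)) := by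
  intro M _ _ _ ρ M' h1 h2
  have hG : Group.FG G := Group.fg_of_surjective hf
  have hH : Group.FG H := Subgroup.fg_of_index_ne_zero H
  obtain ⟨σ, hσ⟩ : ∃ σ : Representation (ZMod p) H (M ⧸ M'), ∀ g v, σ g v = v :=
    ⟨1, fun g v => rfl⟩
  have hc : ∀ (h : H) (v : M), M'.mkQ (ρ h v) = σ h (M'.mkQ v) := by
    intro h v
    rw [hσ, ← sub_eq_zero, ← map_sub, Submodule.mkQ_apply, Submodule.Quotient.mk_eq_zero]
    exact h2 h v
  obtain ⟨Φ, hΦs, hΦc⟩ := CoI_surj p H ρ σ M'.mkQ M'.mkQ_surjective hc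
  have hX : Module.Finite (ZMod p) (CoI p H ρ) := CoI_fin p H ρ
  have hY : Module.Finite (ZMod p) (CoI p H σ) := CoI_fin p H σ
  have a := BD_main p f hf rel hk (coR p H ρ) (coR p H σ) Φ hΦs hΦc
  have b1 : Module.finrank (ZMod p) (CoI p H ρ) = H.index * Module.finrank (ZMod p) M :=
    CoI_finrank p H ρ
  have b2 : Module.finrank (ZMod p) (CoI p H σ) =
      H.index * Module.finrank (ZMod p) (M ⧸ M') := CoI_finrank p H σ
  have b3 := BE_main p H ρ
  have b4 := BE_main p H σ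
  have b5 := BF_main p σ hσ
  have b6 : Module.finrank (ZMod p) (M ⧸ M') + Module.finrank (ZMod p) M' =
      Module.finrank (ZMod p) M := Submodule.finrank_quotient_add_finrank M'
  obtain ⟨j, hj⟩ : ∃ j, H.index = j + 1 :=
    Nat.exists_eq_succ_of_ne_zero Subgroup.FiniteIndex.index_ne_zero
  rw [hj, Nat.add_sub_cancel] at b3 b4
  rw [hj] at b1 b2
  rw [b1, b2, b3, b4, b5, ← b6] at a
  rw [← b6, hj]
  push_cast at a ⊢
  linarith

end Pool.Agent.H93.GS
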