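import Mathlib

/-!
Reverse Golod-Shafarevich inequality for groups with finite elementary abelian p-sections
(MP_7644f1_al, partial result; paper proof by helper43, /team-store/H43_GSNOETH.md).
Definitions.
-/

set_option autoImplicit false

namespace Pool.Agent.H93.GS

/-- right translation `(Rt h f) x = f (x h)` -/
def Rt (p : ℕ) {H : Type} [Group H] (h : H) : (H → ZMod p) →ₗ[ZMod p] (H → ZMod p) :=
  LinearMap.funLeft (ZMod p) (ZMod p) (fun x => x * h)

/-- left translation `(Lt h f) x = f (h x)` -/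
def Lt (p : ℕ) {H : Type} [Group H] (h : H) : (H → ZMod p) →ₗ[ZMod p] (H → ZMod p) :=
  LinearMap.funLeft (ZMod p) (ZMod p) (fun x => h * x)

/-- right difference `(Dr h f) x = f (x h) - f x` -/
def Dr (p : ℕ) {H : Type} [Group H] (h : H) : (H → ZMod p) →ₗ[ZMod p] (H → ZMod p) :=
  Rt p h - LinearMap.id

/-- left difference `(El h f) x = f (h x) - f x` -/
def El (p : ℕ) {H : Type} [Group H] (h : H) : (H → ZMod p) →ₗ[ZMod p] (H → ZMod p) :=
  Lt p h - LinearMap.id

/-- functions that do not change when a factor `s ∈ S` is deleted -/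
def Inv (p : ℕ) {H : Type} [Group H] (S : Set H) : Submodule (ZMod p) (H → ZMod p) where
  carrier := {f | ∀ s ∈ S, ∀ x y : H, f (x * s * y) = f (x * y)}
  add_mem' := by
    intro a b ha hb s hs x y
    simp only [Pi.add_apply]
    rw [ha s hs x y, hb s hs x y]
  zero_mem' := by
    intro s _ x y
    rfl
  smul_mem' := by
    intro c a ha s hs x y
    simp only [Pi.smul_apply]
    rw [ha s hs x y]

/-- the functions on `H / ⟨⟨S⟩⟩` of degree `< k` -/
def V (p : ℕ) {H : Type} [Group H] (S : Set H) : ℕ → Submodule (ZMod p) (H → ZMod p)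
  | 0 => ⊥
  | k + 1 => Inv p S ⊓ ⨅ h : H, (V p S k).comap (Dr p h)

/-- dimension of `V p S k` -/
noncomputable def cc (p : ℕ) {H : Type} [Group H] (S : Set H) (k : ℕ) : ℕ :=
  Module.finrank (ZMod p) (V p S k)

lemma Rt_apply (p : ℕ) {H : Type} [Group H] (h : H) (f : H → ZMod p) (x : H) :
    Rt p h f x = f (x * h) := rfl

lemma Lt_apply (p : ℕ) {H : Type} [Group H] (h : H) (f : H → ZMod p) (x : H) :
    Lt p h f x = f (h * x) := rfl

lemma Dr_apply (p : ℕ) {H : Type} [Group H] (h : H) (f : H → ZMod p) (x : H) :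
    Dr p h f x = f (x * h) - f x := rfl

lemma El_apply (p : ℕ) {H : Type} [Group H] (h : H) (f : H → ZMod p) (x : H) :
    El p h f x = f (h * x) - f x := rfl

lemma Rt_mul (p : ℕ) {H : Type} [Group H] (g h : H) (f : H → ZMod p) :
    Rt p (g * h) f = Rt p g (Rt p h f) := by
  funext x
  simp only [Rt_apply, mul_assoc]

lemma mem_V_zero (p : ℕ) {H : Type} [Group H] (S : Set H) (f : H → ZMod p) :
    f ∈ V p S 0 ↔ f = 0 := by
  simp [V]

lemma mem_V_succ (p : ℕ) {H : Type} [Group H] (S : Set H) (k : ℕ) (f : H → ZMod p) :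
    f ∈ V p S (k + 1) ↔ f ∈ Inv p S ∧ ∀ h : H, Dr p h f ∈ V p S k := by
  simp [V, Submodule.mem_iInf]

lemma mem_Inv (p : ℕ) {H : Type} [Group H] (S : Set H) (f : H → ZMod p) :
    f ∈ Inv p S ↔ ∀ s ∈ S, ∀ x y : H, f (x * s * y) = f (x * y) := Iff.rfl

lemma Dr_eq_zero (p : ℕ) {H : Type} [Group H] (h : H) (f : H → ZMod p) :
    Dr p h f = 0 ↔ Rt p h f = f := by
  simp [Dr, sub_eq_zero]

/-- the elements that act trivially (by right translation) on `V p S k` -/
def Nk (p : ℕ) {H : Type} [Group H] (S : Set H) (k : ℕ) : Subgroup H where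
  carrier := {g | ∀ f ∈ V p S k, Rt p g f = f}
  mul_mem' := by
    intro a b ha hb f hf
    rw [Rt_mul, hb f hf, ha f hf]
  one_mem' := by
    intro f _
    funext x
    simp [Rt_apply]
  inv_mem' := by
    intro a ha f hf
    have h := ha f hf
    calc Rt p a⁻¹ f = Rt p a⁻¹ (Rt p a f) := by rw [h]
      _ = Rt p (a⁻¹ * a) f := by rw [Rt_mul]
      _ = f := by
        funext x
        simp [Rt_apply]

lemma mem_Nk (p : ℕ) {H : Type} [Group H] (S : Set H) (k : ℕ) (g : H) :
    g ∈ Nk p S k ↔ ∀ f ∈ V p S k, Rt p g f = f := Iff.rfl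

/-- crossed homomorphisms -/
def Z1 (p : ℕ) {H : Type} [Group H] {M : Type} [AddCommGroup M] [Module (ZMod p) M]
    (ρ : Representation (ZMod p) H M) : Submodule (ZMod p) (H → M) where
  carrier := {δ | ∀ g h : H, δ (g * h) = δ g + ρ g (δ h)}
  add_mem' := by
    intro a b ha hb g h
    simp only [Pi.add_apply, map_add]
    rw [ha g h, hb g h]
    abel
  zero_mem' := by
    intro g h
    simp
  smul_mem' := by
    intro c a ha g h
    simp only [Pi.smul_apply, map_smul]
    rw [ha g h, smul_add]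

lemma mem_Z1 (p : ℕ) {H : Type} [Group H] {M : Type} [AddCommGroup M] [Module (ZMod p) M]
    (ρ : Representation (ZMod p) H M) (δ : H → M) :
    δ ∈ Z1 p ρ ↔ ∀ g h : H, δ (g * h) = δ g + ρ g (δ h) := Iff.rfl

/-- Golod-Shafarevich datum `(d, r)` of `H` at `p` -/
def GSD (p : ℕ) (H : Type) [Group H] (d r : ℤ) : Prop :=
  ∀ (M : Type) [AddCommGroup M] [Module (ZMod p) M] [Module.Finite (ZMod p) M]
    (ρ : Representation (ZMod p) H M) (M' : Submodule (ZMod p) M),
    (∀ g : H, ∀ v ∈ M', ρ g v ∈ M') → (∀ (g : H) (v : M), ρ g v - v ∈ M') →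
      d * (Module.finrank (ZMod p) M : ℤ) - r * (Module.finrank (ZMod p) M' : ℤ) ≤
        (Module.finrank (ZMod p) (Z1 p ρ) : ℤ)

/-- the set of relators of a list of relators with depths -/
def rs {H : Type} (S : List (H × ℕ)) : Set H := {x | ∃ a, (x, a) ∈ S}

/-- all depths are right -/
def Dp (p : ℕ) {H : Type} [Group H] (S : List (H × ℕ)) : Prop :=
  ∀ q ∈ S, 1 ≤ q.2 ∧ q.1 ∈ Nk p (∅ : Set H) q.2

/-- all elementary abelian `p`-sections `K / L` are finite -/
def FiniteSections (p : ℕ) (G : Type) [Group G] : Prop :=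
  ∀ K L : Subgroup G, L ≤ K → (∀ x ∈ K, x ^ p ∈ L) →
    (∀ x ∈ K, ∀ y ∈ K, x * y * x⁻¹ * y⁻¹ ∈ L) → L.relIndex K ≠ 0

end Pool.Agent.H93.GS
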