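import Pool.Agent.H93.GS.Defs

/-!
Coinduced representations.
-/

set_option autoImplicit false

namespace Pool.Agent.H93.GS

/-- functions `φ : G → M` with `φ (h g) = ρ h (φ g)` for `h ∈ H` -/
def CoI (p : ℕ) {G : Type} [Group G] (H : Subgroup G) {M : Type} [AddCommGroup M]
    [Module (ZMod p) M] (ρ : Representation (ZMod p) H M) : Submodule (ZMod p) (G → M) where
  carrier := {φ | ∀ (h : H) (g : G), φ ((h : G) * g) = ρ h (φ g)}
  add_mem' := by
    intro a b ha hb h g
    simp only [Pi.add_apply, map_add]
    rw [ha h g, hb h g]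
  zero_mem' := by
    intro h g
    simp
  smul_mem' := by
    intro c a ha h g
    simp only [Pi.smul_apply, map_smul]
    rw [ha h g]

lemma mem_CoI (p : ℕ) {G : Type} [Group G] (H : Subgroup G) {M : Type} [AddCommGroup M]
    [Module (ZMod p) M] (ρ : Representation (ZMod p) H M) (φ : G → M) :
    φ ∈ CoI p H ρ ↔ ∀ (h : H) (g : G), φ ((h : G) * g) = ρ h (φ g) := Iff.rfl

/-- right translation on `CoI` -/
def coR (p : ℕ) {G : Type} [Group G] (H : Subgroup G) {M : Type} [AddCommGroup M]
    [Module (ZMod p) M] (ρ : Representation (ZMod p) H M) :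
    Representation (ZMod p) G (CoI p H ρ) where
  toFun g := (LinearMap.funLeft (ZMod p) M (fun x => x * g)).restrict (fun φ hφ h x => by
    have := hφ h (x * g)
    rw [← mul_assoc] at this
    exact this)
  map_one' := by
    apply LinearMap.ext
    intro φ
    apply Subtype.ext
    funext x
    show φ.1 (x * 1) = φ.1 x
    rw [mul_one]
  map_mul' a b := by
    apply LinearMap.ext
    intro φ
    apply Subtype.ext
    funext x
    show φ.1 (x * (a * b)) = φ.1 (x * a * b)
    rw [mul_assoc]

lemma coR_apply (p : ℕ) {G : Type} [Group G] (H : Subgroup G) {M : Type} [AddCommGroup M]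
    [Module (ZMod p) M] (ρ : Representation (ZMod p) H M) (g : G) (φ : CoI p H ρ) (x : G) :
    (coR p H ρ g φ).1 x = φ.1 (x * g) := rfl

end Pool.Agent.H93.GS
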