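import Mathlib

/-!
ROW LA (60 lines).  Linear algebra: common kernel of a list of maps with small images.
Induction on `L`.  `[]`: the set of solutions is everything.  `i :: L`: let `Z' = {z | ∀ j ∈ L, φ j z = 0}`; the kernel of `φ i` restricted to `Z'` is the set for `i :: L`,
its range lies in `U i`; rank-nullity (`LinearMap.finrank_range_add_finrank_ker`, `Submodule.finrank_mono`).
-/

set_option autoImplicit false

namespace Pool.Agent.H93.GS

/-- common zeros of the maps `φ i`, `i ∈ L` -/
def commonKer {K Z W ι : Type} [Field K] [AddCommGroup Z] [Module K Z] [AddCommGroup W]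
    [Module K W] (L : List ι) (φ : ι → Z →ₗ[K] W) : Submodule K Z where
  carrier := {z | ∀ i ∈ L, φ i z = 0}
  add_mem' := by
    intro a b ha hb i hi
    rw [map_add, ha i hi, hb i hi, add_zero]
  zero_mem' := by
    intro i _
    exact map_zero _
  smul_mem' := by
    intro c a ha i hi
    rw [map_smul, ha i hi, smul_zero]

theorem LA_main {K Z W ι : Type} [Field K] [AddCommGroup Z] [Module K Z]
    [Module.Finite K Z] [AddCommGroup W] [Module K W] (L : List ι) (φ : ι → Z →ₗ[K] W)
    (U : ι → Submodule K W) (hU : ∀ i, Module.Finite K (U i))
    (h : ∀ i ∈ L, ∀ z, φ i z ∈ U i) :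
    Module.finrank K Z ≤ Module.finrank K (commonKer L φ) +
      (L.map (fun i => Module.finrank K (U i))).sum := by
  induction L with
  | nil =>
    have hinj : Function.Injective
        ((LinearMap.id : Z →ₗ[K] Z).codRestrict (commonKer ([] : List ι) φ)
          (fun z i hi => absurd hi (List.not_mem_nil))) := by
      intro a b hab
      exact congrArg Subtype.val hab
    have h1 := LinearMap.finrank_le_finrank_of_injective hinj
    exact le_trans h1 (Nat.le_add_right _ _)
  | cons i L ih =>
    have h1 := ih (fun j hj => h j (List.mem_cons_of_mem i hj))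
    let ψ : commonKer L φ →ₗ[K] U i :=
      LinearMap.codRestrict (U i) ((φ i).comp (commonKer L φ).subtype)
        (fun z => h i List.mem_cons_self z.1)
    have hψ : ∀ z, ((ψ z : U i) : W) = φ i z.1 := fun z => rfl
    have := hU i
    have h2 : Module.finrank K (LinearMap.range ψ) ≤ Module.finrank K (U i) :=
      Submodule.finrank_le _
    have h3 := LinearMap.finrank_range_add_finrank_ker ψ
    let θ : LinearMap.ker ψ →ₗ[K] commonKer (i :: L) φ :=
      LinearMap.codRestrict (commonKer (i :: L) φ)
        ((commonKer L φ).subtype.comp (LinearMap.ker ψ).subtype)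
        (by
          intro z j hj
          rcases List.mem_cons.1 hj with hji | hjL
          · subst hji
            have h4 : ψ z.1 = 0 := z.2
            have h5 := hψ z.1
            rw [h4] at h5
            exact h5.symm
          · exact z.1.2 j hjL)
    have hθ : Function.Injective θ := by
      intro a b hab
      have h7 : (θ a).1 = (θ b).1 := congrArg Subtype.val hab
      exact Subtype.ext (Subtype.ext h7)
    have h6 := LinearMap.finrank_le_finrank_of_injective hθ
    rw [List.map_cons, List.sum_cons]
    omega

end Pool.Agent.H93.GS
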