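import Pool.Agent.H93.GS.Defs

/-!
ROW QD (80 lines).  The conclusion of `thmA` contradicts the finiteness of elementary abelian sections.
In `Q = H ⧸ N` the images `u i` of `w i` commute pairwise and satisfy `u i ^ p = 1`.  `A = Subgroup.closure (Set.range u)`: any two elements of `A` commute
(`Subgroup.closure_induction₂`, or `Subgroup.closureCommGroupOfComm`) and `a ^ p = 1` for `a ∈ A` (`Subgroup.closure_induction`, `Commute.mul_pow`).
Let `K = A.comap (QuotientGroup.mk' N)`, `L = N`: `L ≤ K`, `x ^ p ∈ N` for `x ∈ K`, commutators of elements of `K` are in `N` (`QuotientGroup.eq_one_iff`).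
By `hF`: `N.relIndex K ≠ 0`, so `K ⧸ N.subgroupOf K` is finite, but the classes of the `w i ∈ K` are pairwise different: `(w k)⁻¹ * w l ∉ N` for `k < l` (an injection of `ℕ` into a finite
type, `not_injective_infinite_finite`).
-/

set_option autoImplicit false

namespace Pool.Agent.H93.GS

theorem QD_main (p : ℕ) {H : Type} [Group H] (hF : FiniteSections p H) (N : Subgroup H)
    (hN : N.Normal) (w : ℕ → H) (h1 : ∀ i, w i ^ p ∈ N)
    (h2 : ∀ i j, w i * w j * (w i)⁻¹ * (w j)⁻¹ ∈ N)
    (h3 : ∀ k l, k < l → (w k)⁻¹ * w l ∉ N) : False := by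
  haveI := hN
  let q : H →* H ⧸ N := QuotientGroup.mk' N
  have hq : ∀ x, q x = 1 ↔ x ∈ N := fun x => QuotientGroup.eq_one_iff x
  have hu : ∀ x ∈ Set.range (fun i => q (w i)), ∀ y ∈ Set.range (fun i => q (w i)),
      x * y = y * x := by
    rintro _ ⟨i, rfl⟩ _ ⟨j, rfl⟩
    have h := (hq _).2 (h2 i j)
    rw [map_mul, map_mul, map_mul, map_inv, map_inv] at h
    exact (mul_inv_eq_iff_eq_mul.1 (mul_inv_eq_one.1 h))
  let A : Subgroup (H ⧸ N) := Subgroup.closure (Set.range (fun i => q (w i)))
  have hA : ∀ x ∈ A, ∀ y ∈ A, x * y = y * x := by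
    intro x hx y hy
    have h := (Subgroup.isMulCommutative_closure hu)
    exact congrArg Subtype.val (h.is_comm.comm (⟨x, hx⟩ : A) ⟨y, hy⟩)
  have hAp : ∀ x ∈ A, x ^ p = 1 := by
    intro x hx
    induction hx using Subgroup.closure_induction with
    | mem x hx =>
      obtain ⟨i, rfl⟩ := hx
      rw [← map_pow]
      exact (hq _).2 (h1 i)
    | one => exact one_pow p
    | mul x y hx hy ihx ihy =>
      have hc : Commute x y := hA x hx y hy
      rw [hc.mul_pow, ihx, ihy, mul_one]
    | inv x hx ih => rw [inv_pow, ih, inv_one]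
  let K : Subgroup H := A.comap q
  have hLK : N ≤ K := by
    intro x hx
    change q x ∈ A
    rw [(hq x).2 hx]
    exact one_mem A
  have hfin := hF K N hLK (fun x hx => by
    rw [← hq, map_pow]
    exact hAp _ hx) (fun x hx y hy => by
    rw [← hq, map_mul, map_mul, map_mul, map_inv, map_inv, hA _ hx _ hy, mul_inv_cancel_right,
      mul_inv_cancel])
  have hfi : (N.subgroupOf K).FiniteIndex := ⟨hfin⟩
  have hwK : ∀ i, w i ∈ K := fun i => Subgroup.subset_closure ⟨i, rfl⟩
  have hinj : Function.Injective (fun i : ℕ => ((⟨w i, hwK i⟩ : K) : K ⧸ N.subgroupOf K)) := by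
    intro k l hkl
    have h := QuotientGroup.eq.1 hkl
    have h' : (w k)⁻¹ * w l ∈ N := h
    rcases lt_trichotomy k l with hlt | heq | hgt
    · exact absurd h' (h3 k l hlt)
    · exact heq
    · refine absurd ?_ (h3 l k hgt)
      have := N.inv_mem h'
      rwa [mul_inv_rev, inv_inv] at this
  exact not_injective_infinite_finite _ hinj

end Pool.Agent.H93.GS
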