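import Pool.Agent.H93.GS.Defs

/-!
ROW QE (80 lines).
* `sec_sub`: for `K L : Subgroup H` take `K.map H.subtype`, `L.map H.subtype` (`Subgroup.relIndex_map_subtype`-like, `Subgroup.relIndex_comap`; in the worst case: the map of cosets).
* `sec_noeth`: every subgroup of `G` is finitely generated (`WellFoundedGT (Subgroup G)`: `CompleteLattice.WellFoundedGT.isSupFiniteCompact`..., `Subgroup.fg_iff_compact`-like;
  or directly: the family of f.g. subgroups of `K` has a maximal element, it is `K`).  So `K` is f.g., hence `Q = K ⧸ L.subgroupOf K` is f.g.; `L.subgroupOf K` is normal and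
  `Q` is commutative (commutators in `L`), of exponent `p`, so it is a finitely generated torsion commutative group: finite (`CommGroup.finite_of_fg_torsion`), the index is not `0`
  (`Subgroup.relIndex`, `Subgroup.index_ne_zero_of_finite`).
-/

set_option autoImplicit false

namespace Pool.Agent.H93.GS

theorem sec_sub (p : ℕ) {G : Type} [Group G] (hG : FiniteSections p G) (H : Subgroup G) :
    FiniteSections p H := by
  intro K L hLK hp hc
  have hinj : Function.Injective H.subtype := H.subtype_injective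
  have h1 := hG (K.map H.subtype) (L.map H.subtype) (Subgroup.map_mono hLK) ?_ ?_
  · rwa [Subgroup.relIndex_map_map_of_injective _ _ hinj] at h1
  · rintro _ ⟨x, hx, rfl⟩
    exact ⟨x ^ p, hp x hx, map_pow _ _ _⟩
  · rintro _ ⟨x, hx, rfl⟩ _ ⟨y, hy, rfl⟩
    exact ⟨x * y * x⁻¹ * y⁻¹, hc x hx y hy, by simp⟩

theorem QE_fg {G : Type} [Group G] (hG : WellFoundedGT (Subgroup G)) (K : Subgroup G) : K.FG := by
  obtain ⟨P, ⟨hP1, hP2⟩, hmax⟩ := hG.wf.has_min {P : Subgroup G | P.FG ∧ P ≤ K}
    ⟨⊥, Subgroup.FG.bot, bot_le⟩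
  have hPK : P = K := by
    apply le_antisymm hP2
    intro x hx
    by_contra hxP
    have h1 : P ⊔ Subgroup.zpowers x ∈ {P : Subgroup G | P.FG ∧ P ≤ K} := by
      refine ⟨hP1.sup ⟨{x}, ?_⟩, sup_le hP2 ?_⟩
      · rw [Finset.coe_singleton, Subgroup.zpowers_eq_closure]
      · rw [Subgroup.zpowers_le]
        exact hx
    apply hmax _ h1
    refine lt_of_le_of_ne le_sup_left fun h2 => hxP ?_
    rw [h2]
    exact (le_sup_right : Subgroup.zpowers x ≤ P ⊔ Subgroup.zpowers x) (Subgroup.mem_zpowers x)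
  rw [← hPK]
  exact hP1

theorem sec_noeth (p : ℕ) [Fact p.Prime] {G : Type} [Group G] (hG : WellFoundedGT (Subgroup G)) :
    FiniteSections p G := by
  intro K L hLK hp hc
  have hn : (L.subgroupOf K).Normal := by
    constructor
    intro x hx y
    rw [Subgroup.mem_subgroupOf] at hx ⊢
    have h1 := hc y y.2 x x.2
    have h2 := L.mul_mem h1 hx
    simpa using h2
  have hfgK : Group.FG K := (Group.fg_iff_subgroup_fg K).2 (QE_fg hG K)
  have hfgQ : Group.FG (K ⧸ L.subgroupOf K) :=
    Group.fg_of_surjective (QuotientGroup.mk'_surjective (L.subgroupOf K))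
  have hcomm : ∀ a b : K ⧸ L.subgroupOf K, a * b = b * a := by
    intro a b
    obtain ⟨x, rfl⟩ := QuotientGroup.mk'_surjective (L.subgroupOf K) a
    obtain ⟨y, rfl⟩ := QuotientGroup.mk'_surjective (L.subgroupOf K) b
    have h1 : x * y * x⁻¹ * y⁻¹ ∈ L.subgroupOf K := by
      rw [Subgroup.mem_subgroupOf]
      exact hc x x.2 y y.2
    have h2 : QuotientGroup.mk' (L.subgroupOf K) (x * y * x⁻¹ * y⁻¹) = 1 :=
      (QuotientGroup.eq_one_iff _).2 h1
    rw [map_mul, map_mul, map_mul, map_inv, map_inv, mul_inv_eq_one, mul_inv_eq_iff_eq_mul] at h2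
    exact h2
  have htor : ∀ a : K ⧸ L.subgroupOf K, a ^ p = 1 := by
    intro a
    obtain ⟨x, rfl⟩ := QuotientGroup.mk'_surjective (L.subgroupOf K) a
    rw [← map_pow]
    refine (QuotientGroup.eq_one_iff _).2 ?_
    rw [Subgroup.mem_subgroupOf]
    exact hp x x.2
  letI : CommGroup (K ⧸ L.subgroupOf K) :=
    { (inferInstance : Group (K ⧸ L.subgroupOf K)) with mul_comm := hcomm }
  have hp0 : 0 < p := (Fact.out : p.Prime).pos
  have hfin : Finite (K ⧸ L.subgroupOf K) :=
    CommGroup.finite_of_fg_isMulTorsion _ (fun a => isOfFinOrder_iff_pow_eq_one.2 ⟨p, hp0, htor a⟩)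
  exact Subgroup.index_ne_zero_of_finite

end Pool.Agent.H93.GS
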