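import Pool.Agent.H93.GS.QC
import Pool.Agent.H93.GS.QD
import Pool.Agent.H93.GS.QE
import Pool.Agent.H93.GS.BG

/-!
Assembly.
-/

set_option autoImplicit false

namespace Pool.Agent.H93.GS

theorem GSD_mono (p : ℕ) {H : Type} [Group H] (d r r' : ℤ) (h : r ≤ r') (hd : GSD p H d r) :
    GSD p H d r' := by
  intro M _ _ _ ρ M' h1 h2
  have h3 := hd M ρ M' h1 h2
  have h4 : r * (Module.finrank (ZMod p) M' : ℤ) ≤ r' * (Module.finrank (ZMod p) M' : ℤ) :=
    mul_le_mul_of_nonneg_right h (Int.natCast_nonneg _)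
  linarith

theorem noGS (p : ℕ) [Fact p.Prime] {H : Type} [Group H] [Group.FG H] (d r : ℤ)
    (hr : 0 ≤ r) (hd : GSD p H d r) (hF : FiniteSections p H) (t : ℝ) (ht0 : 0 < t)
    (ht1 : t < 1) : 0 ≤ 1 - (d : ℝ) * t + (r : ℝ) * t ^ 2 := by
  by_contra hneg
  obtain ⟨N, w, hN, h1, h2, h3⟩ := thmA p d r hr hd t ht0 ht1 (not_le.1 hneg)
  exact QD_main p hF N hN w h1 h2 h3

theorem main (p : ℕ) [Fact p.Prime] {n m : ℕ} {G : Type} [Group G]
    (f : FreeGroup (Fin n) →* G) (hf : Function.Surjective f)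
    (rel : Fin m → FreeGroup (Fin n))
    (hk : f.ker = Subgroup.normalClosure (Set.range rel)) (hG : FiniteSections p G)
    (H : Subgroup G) [H.FiniteIndex]
    (h2 : 2 ≤ Module.finrank (ZMod p) (Additive H →+ ZMod p)) :
    ((Module.finrank (ZMod p) (Additive H →+ ZMod p) : ℤ) - 2) ^ 2 ≤
      4 * (H.index : ℤ) * ((m : ℤ) - (n : ℤ) + 1) := by
  haveI : Group.FG G := Group.fg_of_surjective hf
  set d : ℤ := (Module.finrank (ZMod p) (Additive H →+ ZMod p) : ℤ) with hd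
  have hd2 : (2 : ℤ) ≤ d := by rw [hd]; exact_mod_cast h2
  by_contra hcon
  have hcon' : 4 * (H.index : ℤ) * ((m : ℤ) - (n : ℤ) + 1) < (d - 2) ^ 2 := not_le.1 hcon
  have hg := BG_main p f hf rel hk H
  rw [← hd] at hg
  set r : ℤ := d - 1 + (H.index : ℤ) * ((m : ℤ) - (n : ℤ) + 1) with hr
  have hg' := GSD_mono p d r (max r 0) (le_max_left _ _) hg
  have hdR : (2 : ℝ) ≤ (d : ℝ) := by exact_mod_cast hd2
  rcases le_or_gt r 0 with h0 | h0
  · rw [max_eq_right h0] at hg'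
    have h5 := noGS p d 0 le_rfl hg' (sec_sub p hG H) (3 / 4) (by norm_num) (by norm_num)
    push_cast at h5
    linarith
  · rw [max_eq_left h0.le] at hg'
    have h4r : 4 * r < d ^ 2 := by
      have : 4 * r = 4 * d - 4 + 4 * (H.index : ℤ) * ((m : ℤ) - (n : ℤ) + 1) := by
        rw [hr]; ring
      rw [this]
      nlinarith
    have hd3 : (3 : ℤ) ≤ d := by
      by_contra hlt
      have : d = 2 := by omega
      rw [this] at h4r
      omega
    have hdR3 : (3 : ℝ) ≤ (d : ℝ) := by exact_mod_cast hd3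
    have h5 := noGS p d r h0.le hg' (sec_sub p hG H) (2 / d) (by positivity)
      (by rw [div_lt_one (by linarith)]; linarith)
    have h6 : (4 : ℝ) * (r : ℝ) < (d : ℝ) ^ 2 := by exact_mod_cast h4r
    have h7 : 1 - (d : ℝ) * (2 / d) + (r : ℝ) * (2 / d) ^ 2 = (4 * (r : ℝ) - (d : ℝ) ^ 2) / (d : ℝ) ^ 2 := by
      field_simp
      ring
    rw [h7] at h5
    have h8 : (4 * (r : ℝ) - (d : ℝ) ^ 2) / (d : ℝ) ^ 2 < 0 :=
      div_neg_of_neg_of_pos (by linarith) (by positivity)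
    linarith

end Pool.Agent.H93.GS
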