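import Mathlib

/-!
ROW NUM (100 lines).  Numeric lemma.  Let `s K = ∑_{k ≤ K} c k t^k`.  Claim `c (K+1) t^(K+1) ≥ t` for all `K ≥ 0`; then `c (K+1) ≥ t / t^(K+1) = t^(-K) → ∞`.
Proof.  For every `k ≥ 0`: `c (k+1) ≥ 1 + d c k - r c (k-1) - ∑_a c (k+1-a)` (reals): `hs` for `k ≥ 1`; for `k = 0`: `c 1 = 1 ≥ 1 + 0 - 0 - 0` (`c 0 = 0`, `0 - 1 = 0`, `1 - a = 0` as `a ≥ 1`).
Multiply by `t^(k+1)` and sum over `k ≤ K`.  Left side: `∑_{k ≤ K} c (k+1) t^(k+1) = s K + c (K+1) t^(K+1)` (`c 0 = 0`).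
Right side `≥ t + d t (s K) - r t² (s K) - ∑_a t^a (s K)`:  `∑ t^(k+1) ≥ t`;  `∑ c k t^(k+1) = t s K`;
`∑_{k ≤ K} c (k-1) t^(k+1) ≤ t² s K` (k = 0 term is 0, terms are nonnegative, `0 ≤ r`);  `∑_{k ≤ K} c (k+1-a) t^(k+1) ≤ t^a s K` (terms with `k + 1 < a` vanish as `c 0 = 0`,
for `k + 1 ≥ a` put `i = k + 1 - a ≤ K`).
So `s K + c (K+1) t^(K+1) ≥ t + (d t - r t² - ∑ t^a) s K ≥ t + s K` by `hneg` and `s K ≥ 0`.
-/

set_option autoImplicit false

namespace Pool.Agent.H93.GS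

theorem NUM_shift (c : ℕ → ℕ) (t : ℝ) (h0 : c 0 = 0) (a : ℕ) (ha : 1 ≤ a) (n : ℕ) :
    ∑ k ∈ Finset.range n, (c (k + 1 - a) : ℝ) * t ^ (k + 1) =
      t ^ a * ∑ i ∈ Finset.range (n + 1 - a), (c i : ℝ) * t ^ i := by
  induction n with
  | zero =>
    have : 0 + 1 - a = 0 := by omega
    simp [this]
  | succ n ih =>
    rw [Finset.sum_range_succ, ih]
    rcases Nat.lt_or_ge (n + 1) a with h | h
    · have e1 : n + 1 - a = 0 := by omega
      have e2 : n + 1 + 1 - a = 0 := by omega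
      rw [e1, e2, h0]
      simp
    · have e2 : n + 1 + 1 - a = (n + 1 - a) + 1 := by omega
      have e3 : t ^ (n + 1) = t ^ a * t ^ (n + 1 - a) := by
        rw [← pow_add]
        congr 1
        omega
      rw [e2, Finset.sum_range_succ, e3]
      ring

theorem NUM_list (c : ℕ → ℕ) (t : ℝ) (ht0 : 0 < t) (h0 : c 0 = 0) (K : ℕ) (A : List ℕ)
    (hA : ∀ a ∈ A, 1 ≤ a) :
    ∑ k ∈ Finset.range (K + 1), (A.map (fun a => (c (k + 1 - a) : ℝ))).sum * t ^ (k + 1) ≤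
      (A.map (fun a => t ^ a)).sum * ∑ i ∈ Finset.range (K + 1), (c i : ℝ) * t ^ i := by
  induction A with
  | nil => simp
  | cons a A ih =>
    have h1 := ih (fun b hb => hA b (List.mem_cons_of_mem _ hb))
    have ha : 1 ≤ a := hA a List.mem_cons_self
    have h2 : ∑ k ∈ Finset.range (K + 1), (c (k + 1 - a) : ℝ) * t ^ (k + 1) ≤
        t ^ a * ∑ i ∈ Finset.range (K + 1), (c i : ℝ) * t ^ i := by
      rw [NUM_shift c t h0 a ha]
      refine mul_le_mul_of_nonneg_left ?_ (pow_nonneg ht0.le _)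
      refine Finset.sum_le_sum_of_subset_of_nonneg ?_ ?_
      · intro i hi
        rw [Finset.mem_range] at hi ⊢
        omega
      · intro i _ _
        exact mul_nonneg (Nat.cast_nonneg _) (pow_nonneg ht0.le _)
    simp only [List.map_cons, List.sum_cons, add_mul, Finset.sum_add_distrib]
    exact add_le_add h2 h1

theorem NUM_main (c : ℕ → ℕ) (d r : ℤ) (hr : 0 ≤ r) (A : List ℕ) (hA : ∀ a ∈ A, 1 ≤ a) (t : ℝ)
    (ht0 : 0 < t) (ht1 : t < 1) (h0 : c 0 = 0) (h1 : c 1 = 1)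
    (hs : ∀ k, 1 ≤ k → (1 : ℤ) + d * (c k : ℤ) - r * (c (k - 1) : ℤ) -
      (A.map (fun a => (c (k + 1 - a) : ℤ))).sum ≤ (c (k + 1) : ℤ))
    (hneg : 1 - (d : ℝ) * t + (r : ℝ) * t ^ 2 + (A.map (fun a => t ^ a)).sum < 0) :
    ∀ B : ℕ, ∃ k, B < c k := by
  have hk : ∀ k : ℕ, (1 : ℝ) + d * (c k : ℝ) - r * (c (k - 1) : ℝ) -
      (A.map (fun a => (c (k + 1 - a) : ℝ))).sum ≤ (c (k + 1) : ℝ) := by
    intro k
    rcases Nat.eq_zero_or_pos k with rfl | hpos
    · have e : (A.map (fun a => (c (0 + 1 - a) : ℝ))).sum = 0 := by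
        apply List.sum_eq_zero
        intro x hx
        obtain ⟨a, ha, rfl⟩ := List.mem_map.1 hx
        have h2 := hA a ha
        have h3 : 0 + 1 - a = 0 := by omega
        simp only [h3, h0, Nat.cast_zero]
      rw [e]
      simp [h0, h1]
    · have h := hs k hpos
      have h2 : (((1 : ℤ) + d * (c k : ℤ) - r * (c (k - 1) : ℤ) -
        (A.map (fun a => (c (k + 1 - a) : ℤ))).sum : ℤ) : ℝ) ≤ (((c (k + 1) : ℤ) : ℤ) : ℝ) := by
        exact_mod_cast h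
      have e : (((A.map (fun a => (c (k + 1 - a) : ℤ))).sum : ℤ) : ℝ) =
          (A.map (fun a => (c (k + 1 - a) : ℝ))).sum := by
        clear hA hs hneg h h2
        induction A with
        | nil => simp
        | cons a A ih => simp only [List.map_cons, List.sum_cons, Int.cast_add, ih, Int.cast_natCast]
      push_cast at h2
      rw [← e]
      simpa using h2
  have key : ∀ K : ℕ, t ≤ (c (K + 1) : ℝ) * t ^ (K + 1) := by
    intro K
    set S : ℝ := ∑ i ∈ Finset.range (K + 1), (c i : ℝ) * t ^ i with hS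
    have hS0 : 0 ≤ S := Finset.sum_nonneg fun i _ => mul_nonneg (Nat.cast_nonneg _) (pow_nonneg ht0.le _)
    have e1 : ∑ k ∈ Finset.range (K + 1), (c (k + 1) : ℝ) * t ^ (k + 1) = S + (c (K + 1) : ℝ) * t ^ (K + 1) := by
      have a1 := Finset.sum_range_succ' (fun k => (c k : ℝ) * t ^ k) (K + 1)
      have a2 := Finset.sum_range_succ (fun k => (c k : ℝ) * t ^ k) (K + 1)
      rw [a2] at a1
      simp only [h0, Nat.cast_zero, zero_mul, add_zero] at a1
      rw [← a1]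
    have e2 : t ≤ ∑ k ∈ Finset.range (K + 1), t ^ (k + 1) := by
      have := Finset.single_le_sum (f := fun k => t ^ (k + 1)) (s := Finset.range (K + 1))
        (fun i _ => pow_nonneg ht0.le _) (Finset.mem_range.2 (Nat.succ_pos K))
      simpa using this
    have e3 : ∑ k ∈ Finset.range (K + 1), (c k : ℝ) * t ^ (k + 1) = t * S := by
      rw [hS, Finset.mul_sum]
      refine Finset.sum_congr rfl fun k _ => ?_
      rw [pow_succ]
      ring
    have e4 : ∑ k ∈ Finset.range (K + 1), (c (k - 1) : ℝ) * t ^ (k + 1) ≤ t ^ 2 * S := by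
      rw [Finset.sum_range_succ']
      simp only [Nat.add_sub_cancel, Nat.zero_sub, h0, Nat.cast_zero, zero_mul, add_zero]
      have a1 : ∑ k ∈ Finset.range K, (c k : ℝ) * t ^ (k + 1 + 1) =
          t ^ 2 * ∑ k ∈ Finset.range K, (c k : ℝ) * t ^ k := by
        rw [Finset.mul_sum]
        refine Finset.sum_congr rfl fun k _ => ?_
        ring
      rw [a1]
      refine mul_le_mul_of_nonneg_left ?_ (by positivity)
      rw [hS, Finset.sum_range_succ]
      have : 0 ≤ (c K : ℝ) * t ^ K := mul_nonneg (Nat.cast_nonneg _) (pow_nonneg ht0.le _)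
      linarith
    have e5 := NUM_list c t ht0 h0 K A hA
    rw [← hS] at e5
    have e6 : ∑ k ∈ Finset.range (K + 1), ((1 : ℝ) + d * (c k : ℝ) - r * (c (k - 1) : ℝ) -
        (A.map (fun a => (c (k + 1 - a) : ℝ))).sum) * t ^ (k + 1) ≤
        ∑ k ∈ Finset.range (K + 1), (c (k + 1) : ℝ) * t ^ (k + 1) :=
      Finset.sum_le_sum fun k _ => mul_le_mul_of_nonneg_right (hk k) (pow_nonneg ht0.le _)
    have e7 : ∑ k ∈ Finset.range (K + 1), ((1 : ℝ) + d * (c k : ℝ) - r * (c (k - 1) : ℝ) -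
        (A.map (fun a => (c (k + 1 - a) : ℝ))).sum) * t ^ (k + 1) =
        ∑ k ∈ Finset.range (K + 1), t ^ (k + 1) +
        (d : ℝ) * ∑ k ∈ Finset.range (K + 1), (c k : ℝ) * t ^ (k + 1) -
        (r : ℝ) * ∑ k ∈ Finset.range (K + 1), (c (k - 1) : ℝ) * t ^ (k + 1) -
        ∑ k ∈ Finset.range (K + 1), (A.map (fun a => (c (k + 1 - a) : ℝ))).sum * t ^ (k + 1) := by
      rw [Finset.mul_sum, Finset.mul_sum, ← Finset.sum_add_distrib, ← Finset.sum_sub_distrib,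
        ← Finset.sum_sub_distrib]
      refine Finset.sum_congr rfl fun k _ => ?_
      ring
    rw [e7, e1, e3] at e6
    have hr' : (0 : ℝ) ≤ (r : ℝ) := by exact_mod_cast hr
    have e8 : (r : ℝ) * ∑ k ∈ Finset.range (K + 1), (c (k - 1) : ℝ) * t ^ (k + 1) ≤ (r : ℝ) * (t ^ 2 * S) :=
      mul_le_mul_of_nonneg_left e4 hr'
    have e9 : 0 ≤ ((d : ℝ) * t - (r : ℝ) * t ^ 2 - (A.map (fun a => t ^ a)).sum - 1) * S :=
      mul_nonneg (by linarith) hS0
    nlinarith [e6, e8, e5, e2, e9]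
  intro B
  obtain ⟨K, hK⟩ := pow_unbounded_of_one_lt (B : ℝ) ((one_lt_inv₀ ht0).2 ht1)
  refine ⟨K + 1, ?_⟩
  have h2 := key K
  have h3 : (1 : ℝ) ≤ (c (K + 1) : ℝ) * t ^ K := by
    have : t * 1 ≤ t * ((c (K + 1) : ℝ) * t ^ K) := by
      calc t * 1 = t := mul_one t
        _ ≤ (c (K + 1) : ℝ) * t ^ (K + 1) := h2
        _ = t * ((c (K + 1) : ℝ) * t ^ K) := by rw [pow_succ]; ring
    exact le_of_mul_le_mul_left this ht0
  have h4 : (B : ℝ) < (c (K + 1) : ℝ) := by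
    have hp : 0 < t ^ K := pow_pos ht0 K
    rw [inv_pow] at hK
    calc (B : ℝ) < (t ^ K)⁻¹ := hK
      _ = 1 * (t ^ K)⁻¹ := (one_mul _).symm
      _ ≤ ((c (K + 1) : ℝ) * t ^ K) * (t ^ K)⁻¹ := mul_le_mul_of_nonneg_right h3 (inv_nonneg.2 hp.le)
      _ = (c (K + 1) : ℝ) := by field_simp
  exact_mod_cast h4

end Pool.Agent.H93.GS
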