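import Pool.Agent.H93.GS.VA
import Pool.Agent.H93.GS.VB

/-!
ROW PA (70 lines).  From crossed homomorphisms to functions.  `fd δ x = (δ x) 1` for `δ ∈ Z1 p (rV p S k)`.
* `fd_Dr`: `fd δ (x h) - fd δ x = (rV x (δ h)) 1 = (δ h) (1 * x) = (δ h) x` (`mem_Z1`, `rV_coe`, `Rt_apply`).
* `fd_mem`: if `δ s = 0` for all `s ∈ S` then `fd δ ∈ V p S (k+1)`: `Dr h (fd δ) = δ h ∈ V p S k`; invariance: `δ (x s y) = δ x + x (δ s + s (δ y)) = δ x + x s (δ y)`, so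
  `fd δ (x s y) = (δ x) 1 + (δ y) (x s) = (δ x) 1 + (δ y) x = fd δ (x y)` since `δ y ∈ V p S k ≤ Inv p S` (use it at `x`, `1`).
* `fd_mem_empty`: same for `V p ∅ (k+1)`: `Dr h (fd δ) = δ h ∈ V p S k ≤ V p ∅ k` (`V_anti`), no invariance needed.
* `V_of_empty`: `f ∈ V p ∅ i` and `f ∈ Inv p S` imply `f ∈ V p S i` (induction on `i`, `Dr_mem_Inv`).
-/

set_option autoImplicit false

namespace Pool.Agent.H93.GS

/-- the function of a crossed homomorphism -/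
def fd (p : ℕ) {H : Type} [Group H] (S : Set H) (k : ℕ) (δ : H → V p S k) : H → ZMod p :=
  fun x => (δ x).1 1

private theorem fd_mul (p : ℕ) {H : Type} [Group H] (S : Set H) (k : ℕ) (δ : H → V p S k)
    (hδ : δ ∈ Z1 p (rV p S k)) (x h z : H) : (δ (x * h)).1 z = (δ x).1 z + (δ h).1 (z * x) := by
  rw [(mem_Z1 p (rV p S k) δ).1 hδ x h]
  show (δ x).1 z + (rV p S k x (δ h)).1 z = _
  rw [rV_coe, Rt_apply]

theorem fd_Dr (p : ℕ) {H : Type} [Group H] (S : Set H) (k : ℕ) (δ : H → V p S k)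
    (hδ : δ ∈ Z1 p (rV p S k)) (h : H) : Dr p h (fd p S k δ) = (δ h).1 := by
  funext x
  rw [Dr_apply]
  show (δ (x * h)).1 1 - (δ x).1 1 = _
  rw [fd_mul p S k δ hδ, one_mul, add_sub_cancel_left]

theorem fd_one (p : ℕ) {H : Type} [Group H] (S : Set H) (k : ℕ) (δ : H → V p S k)
    (hδ : δ ∈ Z1 p (rV p S k)) : fd p S k δ 1 = 0 := by
  show (δ 1).1 1 = 0
  have h := fd_mul p S k δ hδ 1 1 1
  rw [mul_one] at h
  exact left_eq_add.1 h

theorem fd_mem (p : ℕ) {H : Type} [Group H] (S : Set H) (k : ℕ) (δ : H → V p S k)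
    (hδ : δ ∈ Z1 p (rV p S k)) (hs : ∀ s ∈ S, δ s = 0) : fd p S k δ ∈ V p S (k + 1) := by
  rw [mem_V_succ]
  refine ⟨?_, fun h => ?_⟩
  · rw [mem_Inv]
    intro s hsS x y
    show (δ (x * s * y)).1 1 = (δ (x * y)).1 1
    rw [mul_assoc, fd_mul p S k δ hδ x (s * y), fd_mul p S k δ hδ x y, fd_mul p S k δ hδ s y,
      hs s hsS, one_mul]
    have h1 := (mem_Inv p S (δ y).1).1 (V_inv p S k (δ y).2) s hsS x 1
    rw [mul_one, mul_one] at h1
    rw [h1]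
    show (δ x).1 1 + (0 + (δ y).1 x) = _
    rw [zero_add]
  · rw [fd_Dr p S k δ hδ]
    exact (δ h).2

theorem fd_mem_empty (p : ℕ) {H : Type} [Group H] (S : Set H) (k : ℕ) (δ : H → V p S k)
    (hδ : δ ∈ Z1 p (rV p S k)) : fd p S k δ ∈ V p (∅ : Set H) (k + 1) := by
  rw [mem_V_succ]
  refine ⟨?_, fun h => ?_⟩
  · rw [mem_Inv]
    intro s hs
    exact hs.elim
  · rw [fd_Dr p S k δ hδ]
    exact V_anti p (Set.empty_subset S) k (δ h).2

theorem V_of_empty (p : ℕ) {H : Type} [Group H] (S : Set H) (i : ℕ) (f : H → ZMod p)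
    (h1 : f ∈ V p (∅ : Set H) i) (h2 : f ∈ Inv p S) : f ∈ V p S i := by
  induction i generalizing f with
  | zero =>
    rw [mem_V_zero] at h1 ⊢
    exact h1
  | succ i ih =>
    rw [mem_V_succ] at h1 ⊢
    exact ⟨h2, fun h => ih _ (h1.2 h) (Dr_mem_Inv p S h f h2)⟩

end Pool.Agent.H93.GS
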