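import Pool.Agent.H93.GS.VD

/-!
ROW VE (80 lines).  The subgroups `Nk p S k` (`mem_Nk`).
* `Nk_normal`: for `g ∈ Nk`, `f ∈ V`: `Rt (h g h⁻¹) f = Rt h (Rt g (Rt h⁻¹ f)) = Rt h (Rt h⁻¹ f) = f` since `Rt h⁻¹ f ∈ V` (`Rt_mul`, `Rt_mem_V`).
* `Nk_anti` from `V_le`, `Nk_mono` from `V_anti`.
* `Nk_fin`: `H` acts on the finite set `V p S k` (finite dimensional over the finite field `ZMod p`: `V_fin`, `Module.finite_of_finite (ZMod p)`), the homomorphism
  `H →* (V p S k →ₗ V p S k)ˣ` or `H →* Equiv.Perm (V p S k)` (from `rV`, `Representation.asGroupHom` or `MonoidHom.toHomUnits`) has kernel `Nk p S k`,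
  a kernel of a homomorphism into a finite group has finite index (`Subgroup.finiteIndex_ker`).
* `mem_Nk_of_mem`: `s ∈ S`, `f ∈ V p S k ≤ Inv p S` (`V_inv`): `f (x s) = f (x s 1) = f (x 1)`.
* `V_union`: `T ⊆ Nk p S k` implies `V p (S ∪ T) k = V p S k`.  `≤`: `V_anti`.  `≥`: by induction on `j ≤ k`, `V p S j ≤ V p (S ∪ T) j`: for
  `f ∈ V p S (j+1)`, `t ∈ T`: `f (x t y) = f (x y (y⁻¹ t y)) = (Rt (y⁻¹ t y) f) (x y) = f (x y)` because `y⁻¹ t y ∈ Nk p S k ≤ Nk p S (j+1)`.
-/

set_option autoImplicit false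

namespace Pool.Agent.H93.GS

theorem Nk_normal (p : ℕ) {H : Type} [Group H] (S : Set H) (k : ℕ) : (Nk p S k).Normal := by
  constructor
  intro g hg h
  rw [mem_Nk] at hg ⊢
  intro f hf
  rw [Rt_mul, Rt_mul, hg _ (Rt_mem_V p S k h⁻¹ f hf), ← Rt_mul, mul_inv_cancel]
  funext x
  rw [Rt_apply, mul_one]

theorem Nk_anti (p : ℕ) {H : Type} [Group H] (S : Set H) {j k : ℕ} (h : j ≤ k) :
    Nk p S k ≤ Nk p S j := by
  intro g hg
  rw [mem_Nk] at hg ⊢
  exact fun f hf => hg f (V_le p S h hf)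

theorem Nk_mono (p : ℕ) {H : Type} [Group H] {S S' : Set H} (h : S ⊆ S') (k : ℕ) :
    Nk p S k ≤ Nk p S' k := by
  intro g hg
  rw [mem_Nk] at hg ⊢
  exact fun f hf => hg f (V_anti p h k hf)

theorem Nk_fin (p : ℕ) [Fact p.Prime] {H : Type} [Group H] [Group.FG H] (S : Set H) (k : ℕ) :
    (Nk p S k).FiniteIndex := by
  have h1 : Module.Finite (ZMod p) (V p S k) := V_fin p S k
  have h2 : Finite (V p S k) := Module.finite_of_finite (ZMod p)
  let φ : H →* (Module.End (ZMod p) (V p S k))ˣ := (rV p S k).toHomUnits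
  have h3 : Finite (Module.End (ZMod p) (V p S k)) :=
    Finite.of_injective (fun f : Module.End (ZMod p) (V p S k) => (f : V p S k → V p S k))
      DFunLike.coe_injective
  have h4 : Nk p S k = φ.ker := by
    ext g
    rw [mem_Nk, MonoidHom.mem_ker]
    constructor
    · intro h
      apply Units.ext
      apply LinearMap.ext
      intro f
      apply Subtype.ext
      exact h f.1 f.2
    · intro h f hf
      have h5 := congrArg (fun u : (Module.End (ZMod p) (V p S k))ˣ => ((u.1 ⟨f, hf⟩ : V p S k) :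
        H → ZMod p)) h
      exact h5
  rw [h4]
  have h5 : Finite φ.range := inferInstance
  exact Subgroup.finiteIndex_ker φ

theorem mem_Nk_of_mem (p : ℕ) {H : Type} [Group H] (S : Set H) (k : ℕ) (s : H) (hs : s ∈ S) :
    s ∈ Nk p S k := by
  rw [mem_Nk]
  intro f hf
  funext x
  have h := V_inv p S k hf s hs x 1
  rw [mul_one, mul_one] at h
  exact h

theorem V_union (p : ℕ) {H : Type} [Group H] (S T : Set H) (k : ℕ)
    (hT : ∀ t ∈ T, t ∈ Nk p S k) : V p (S ∪ T) k = V p S k := by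
  refine le_antisymm (V_anti p Set.subset_union_left k) ?_
  have key : ∀ j, j ≤ k → V p S j ≤ V p (S ∪ T) j := by
    intro j
    induction j with
    | zero =>
      intro _ f hf
      rw [mem_V_zero] at hf ⊢
      exact hf
    | succ j ih =>
      intro hj f hf
      have hf' := hf
      rw [mem_V_succ] at hf ⊢
      refine ⟨?_, fun h => ih (by omega) (hf.2 h)⟩
      intro s hs x y
      rcases hs with hs | hs
      · exact hf.1 s hs x y
      · have hn := Nk_normal p S k
        have h1 : y⁻¹ * s * y ∈ Nk p S k := by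
          have := hn.conj_mem s (hT s hs) y⁻¹
          rwa [inv_inv] at this
        have h2 := (mem_Nk p S (j + 1) _).1 (Nk_anti p S hj h1) f hf'
        have h3 := congrFun h2 (x * y)
        rw [Rt_apply] at h3
        rw [← h3]
        congr 1
        group
  exact key k le_rfl

end Pool.Agent.H93.GS
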