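import Pool.Agent.H93.GS.VC

/-!
ROW VF (70 lines).
* `depth`: if `g ∈ Nk p S a` and `f ∈ V p S (k + a)` then `Dr g f ∈ V p S k`.  Induction on `k` (all `f`).  `k = 0`: `Rt g f = f` (`f ∈ V p S (0 + a)`), so
  `Dr g f = 0`.  `k + 1`: by `mem_V_succ_left` (←) it is enough that `Dr g f ∈ Inv` (`Dr_mem_Inv`) and that `El h (Dr g f) = Dr g (El h f) ∈ V p S k`: `f ∈ V (k + 1 + a) =
  V ((k + a) + 1)` gives `El h f ∈ V (k + a)` (`mem_V_succ_left` (→)), induction hypothesis.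
* `add_const`: for `1 ≤ a`, `g ∈ Nk p S a`, `f ∈ V p S (a + 1)` there is `c` with `f (x g) = f x + c` for all `x` (`depth` with `k = 1`, `V_one`).
* `pow_mem_Nk`: with `c` as above `f (x g ^ n) = f x + n c` (induction on `n`), and `(p : ZMod p) = 0`.
* `comm_mem_Nk`: `g ∈ Nk p S a`, `f ∈ V (a+1)`, `c` as above.  Put `u = x h`.  `Dr h⁻¹ f ∈ V a` is fixed by `Rt g`:
  `f (u g h⁻¹) - f (u g) = (Dr h⁻¹ f)(u g) = (Dr h⁻¹ f) u = f (u h⁻¹) - f u`, so `f (x h g h⁻¹) = f (u g) + f x - f u = f x + c`.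
  With `y = x h g h⁻¹ g⁻¹`: `f (y g) = f y + c`, `y g = x h g h⁻¹`, so `f y = f x`.
-/

set_option autoImplicit false

namespace Pool.Agent.H93.GS

theorem depth (p : ℕ) {H : Type} [Group H] (S : Set H) (a : ℕ) (g : H) (hg : g ∈ Nk p S a)
    (k : ℕ) (f : H → ZMod p) (hf : f ∈ V p S (k + a)) : Dr p g f ∈ V p S k := by
  induction k generalizing f with
  | zero =>
    rw [zero_add] at hf
    rw [mem_V_zero, Dr_eq_zero]
    exact (mem_Nk p S a g).1 hg f hf
  | succ k ih =>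
    have e : k + 1 + a = (k + a) + 1 := by omega
    rw [e] at hf
    rw [mem_V_succ_left]
    refine ⟨Dr_mem_Inv p S g f (V_inv p S _ hf), fun h => ?_⟩
    rw [← Dr_El]
    exact ih _ (((mem_V_succ_left p S (k + a) f).1 hf).2 h)

theorem add_const (p : ℕ) {H : Type} [Group H] (S : Set H) (a : ℕ) (g : H)
    (hg : g ∈ Nk p S a) (f : H → ZMod p) (hf : f ∈ V p S (a + 1)) :
    ∃ c : ZMod p, ∀ x : H, f (x * g) = f x + c := by
  have h1 : Dr p g f ∈ V p S 1 := by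
    apply depth p S a g hg 1 f
    rw [add_comm 1 a]
    exact hf
  obtain ⟨c, hc⟩ := (V_one p S _).1 h1
  refine ⟨c, fun x => ?_⟩
  have h2 := congrFun hc x
  rw [Dr_apply] at h2
  rw [← h2]
  ring

theorem pow_mem_Nk (p : ℕ) {H : Type} [Group H] (S : Set H) (a : ℕ) (g : H)
    (hg : g ∈ Nk p S a) : g ^ p ∈ Nk p S (a + 1) := by
  rw [mem_Nk]
  intro f hf
  obtain ⟨c, hc⟩ := add_const p S a g hg f hf
  have key : ∀ (n : ℕ) (x : H), f (x * g ^ n) = f x + (n : ZMod p) * c := by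
    intro n
    induction n with
    | zero =>
      intro x
      simp
    | succ n ih =>
      intro x
      rw [pow_succ, ← mul_assoc, hc, ih]
      push_cast
      ring
  funext x
  rw [Rt_apply, key]
  simp

theorem comm_mem_Nk (p : ℕ) {H : Type} [Group H] (S : Set H) (a : ℕ) (g h : H)
    (hg : g ∈ Nk p S a) : h * g * h⁻¹ * g⁻¹ ∈ Nk p S (a + 1) := by
  rw [mem_Nk]
  intro f hf
  obtain ⟨c, hc⟩ := add_const p S a g hg f hf
  have h1 : Dr p h⁻¹ f ∈ V p S a := ((mem_V_succ p S a f).1 hf).2 h⁻¹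
  have h2 := (mem_Nk p S a g).1 hg _ h1
  funext x
  rw [Rt_apply]
  have h3 := congrFun h2 (x * h)
  rw [Rt_apply, Dr_apply, Dr_apply, hc (x * h), mul_inv_cancel_right] at h3
  have h4 := hc (x * (h * g * h⁻¹ * g⁻¹))
  have e1 : x * (h * g * h⁻¹ * g⁻¹) * g = x * h * g * h⁻¹ := by group
  rw [e1] at h4
  have h5 : f (x * (h * g * h⁻¹ * g⁻¹)) + c = f (x * h) + c + (f x - f (x * h)) := by
    rw [← h4, ← h3]
    ring
  have h6 : f (x * (h * g * h⁻¹ * g⁻¹)) + c = f x + c := by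
    rw [h5]
    ring
  exact add_right_cancel h6

end Pool.Agent.H93.GS
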