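import Pool.Agent.H93.GS.PA
import Pool.Agent.H93.GS.VE
import Pool.Agent.H93.GS.VF

/-!
ROW PB (40 lines).  A relator of depth `a` imposes few conditions: for `s ∈ Nk p ∅ a` and `δ ∈ Z1 p (rV p S k)` the function `δ s` lies in
`V p S (k + 1 - a)` (natural subtraction).
Proof.  `f = fd δ ∈ V p ∅ (k+1)` (`fd_mem_empty`), `Dr s f = δ s` (`fd_Dr`), `δ s ∈ V p S k ≤ Inv p S` (`V_inv`).
If `a ≤ k + 1`: `k + 1 = (k + 1 - a) + a`, `depth` (with `S = ∅`) gives `δ s ∈ V p ∅ (k+1-a)`, then `V_of_empty`.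
If `a > k + 1`: `s ∈ Nk p ∅ (k+1)` (`Nk_anti`), so `Rt s f = f`, `δ s = 0` (`Dr_eq_zero`).
-/

set_option autoImplicit false

namespace Pool.Agent.H93.GS

theorem eval_mem (p : ℕ) {H : Type} [Group H] (S : Set H) (k a : ℕ) (s : H)
    (hs : s ∈ Nk p (∅ : Set H) a) (δ : H → V p S k) (hδ : δ ∈ Z1 p (rV p S k)) :
    ((δ s : V p S k) : H → ZMod p) ∈ V p S (k + 1 - a) := by
  have h1 := fd_mem_empty p S k δ hδ
  have h2 := fd_Dr p S k δ hδ s
  rcases le_or_gt a (k + 1) with h | h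
  · have e : k + 1 = (k + 1 - a) + a := by omega
    rw [e] at h1
    have h3 := depth p ∅ a s hs (k + 1 - a) _ h1
    rw [h2] at h3
    exact V_of_empty p S _ _ h3 (V_inv p S k (δ s).2)
  · have h3 : s ∈ Nk p (∅ : Set H) (k + 1) := Nk_anti p ∅ h.le hs
    have h4 : Dr p s (fd p S k δ) = 0 := (Dr_eq_zero p s _).2 (h3 _ h1)
    rw [← h2, h4]
    exact zero_mem _

end Pool.Agent.H93.GS
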