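import Pool.Agent.H93.GS.PB
import Pool.Agent.H93.GS.LA

/-!
ROW PC (100 lines).  The Golod-Shafarevich recursion.  Let `T = rs S`, `Z = Z1 p (rV p T k)` (finite dimensional: `V_fin`, `Z1_fin`).
(1) `LA_main` with `L = S`, `W = (H → ZMod p)`, `φ q δ = ((δ q.1 : V p T k) : H → ZMod p)`, `U q = V p T (k+1-q.2)` (`eval_mem`, `hS q`): 
    `finrank Z ≤ finrank (commonKer S φ) + ∑_{q ∈ S} cc p T (k+1-q.2)`.
(2) `1 + finrank (commonKer S φ) ≤ cc p T (k+1)`: the linear map `ZMod p × commonKer S φ → V p T (k+1)`, `(c, δ) ↦ (fun x => c + fd δ x)` is injective: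
    at `x = 1` it is `c` (`fd_one`), so `c = 0`, then `fd δ = 0`, so `δ h = Dr h (fd δ) = 0` (`fd_Dr`).  It is well defined by `const_mem`, `fd_mem`
    (`δ s = 0` for `s ∈ rs S` from `commonKer`).  `LinearMap.finrank_le_finrank_of_injective`, `Module.finrank_prod`, `Module.finrank_self`.
(3) `hd` (the GS datum) with `M = V p T k`, `ρ = rV p T k`, `M' = (V p T (k-1)).comap (V p T k).subtype` (`V_le`; its finrank is `cc p T (k-1)`: `Submodule.comapSubtypeEquivOfLe`):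
    `rV g v ∈ M'` for `v ∈ M'` (`Rt_mem_V`), `rV g v - v = Dr g v ∈ V p T (k-1)` since `v ∈ V p T ((k-1)+1)` (`mem_V_succ`, `hk`).
-/

set_option autoImplicit false

namespace Pool.Agent.H93.GS

/-- evaluation of a crossed homomorphism at a relator -/
def PC_phi (p : ℕ) {H : Type} [Group H] (T : Set H) (k : ℕ) (q : H × ℕ) :
    Z1 p (rV p T k) →ₗ[ZMod p] (H → ZMod p) :=
  (V p T k).subtype ∘ₗ (LinearMap.proj (R := ZMod p) (φ := fun _ : H => V p T k) q.1) ∘ₗ
    (Z1 p (rV p T k)).subtype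

theorem PC_phi_apply (p : ℕ) {H : Type} [Group H] (T : Set H) (k : ℕ) (q : H × ℕ)
    (δ : Z1 p (rV p T k)) : PC_phi p T k q δ = ((δ.1 q.1 : V p T k) : H → ZMod p) := rfl

theorem PC_zero (p : ℕ) [Fact p.Prime] {H : Type} [Group H] (S : List (H × ℕ)) (k : ℕ)
    (δ : commonKer S (PC_phi p (rs S) k)) : ∀ s ∈ rs S, δ.1.1 s = 0 := by
  rintro s ⟨a, ha⟩
  have h1 : PC_phi p (rs S) k (s, a) δ.1 = 0 := δ.2 (s, a) ha
  rw [PC_phi_apply] at h1
  exact Subtype.ext h1

/-- the functions of the crossed homomorphisms that vanish on the relators, plus constants -/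
def PC_psi (p : ℕ) [Fact p.Prime] {H : Type} [Group H] (S : List (H × ℕ)) (k : ℕ) :
    (ZMod p × commonKer S (PC_phi p (rs S) k)) →ₗ[ZMod p] V p (rs S) (k + 1) where
  toFun cd := ⟨(fun _ => cd.1) + fd p (rs S) k cd.2.1.1,
    Submodule.add_mem _ (const_mem p (rs S) k cd.1)
      (fd_mem p (rs S) k cd.2.1.1 cd.2.1.2 (PC_zero p S k cd.2))⟩
  map_add' a b := by
    apply Subtype.ext
    funext x
    show (a.1 + b.1) + ((a.2.1.1 x + b.2.1.1 x : V p (rs S) k) : H → ZMod p) 1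
      = (a.1 + (a.2.1.1 x : H → ZMod p) 1) + (b.1 + (b.2.1.1 x : H → ZMod p) 1)
    rw [Submodule.coe_add, Pi.add_apply]
    ring
  map_smul' c a := by
    apply Subtype.ext
    funext x
    show (c * a.1) + ((c • a.2.1.1 x : V p (rs S) k) : H → ZMod p) 1
      = c * (a.1 + (a.2.1.1 x : H → ZMod p) 1)
    rw [Submodule.coe_smul, Pi.smul_apply, smul_eq_mul]
    ring

theorem PC_psi_inj (p : ℕ) [Fact p.Prime] {H : Type} [Group H] (S : List (H × ℕ)) (k : ℕ) :
    Function.Injective (PC_psi p S k) := by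
  rw [← LinearMap.ker_eq_bot, LinearMap.ker_eq_bot']
  rintro ⟨c, δ⟩ h
  have h1 : (fun _ : H => c) + fd p (rs S) k δ.1.1 = 0 := congrArg Subtype.val h
  have h2 := congrFun h1 1
  have h3 : c + fd p (rs S) k δ.1.1 1 = 0 := h2
  rw [fd_one p (rs S) k δ.1.1 δ.1.2, add_zero] at h3
  have h4 : fd p (rs S) k δ.1.1 = 0 := by
    rw [h3] at h1
    funext x
    have h5 := congrFun h1 x
    have h6 : (0 : ZMod p) + fd p (rs S) k δ.1.1 x = 0 := h5
    rwa [zero_add] at h6
  have h5 : δ = 0 := by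
    apply Subtype.ext
    apply Subtype.ext
    funext x
    apply Subtype.ext
    have h6 := fd_Dr p (rs S) k δ.1.1 δ.1.2 x
    rw [h4, map_zero] at h6
    exact h6.symm
  rw [h3, h5]
  rfl

theorem star (p : ℕ) [Fact p.Prime] {H : Type} [Group H] [Group.FG H] (d r : ℤ)
    (hd : GSD p H d r) (S : List (H × ℕ)) (hS : Dp p S) (k : ℕ) (hk : 1 ≤ k) :
    (1 : ℤ) + d * (cc p (rs S) k : ℤ) - r * (cc p (rs S) (k - 1) : ℤ) -
        (S.map (fun q => (cc p (rs S) (k + 1 - q.2) : ℤ))).sum ≤ (cc p (rs S) (k + 1) : ℤ) := by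
  haveI hfin : ∀ j, Module.Finite (ZMod p) (V p (rs S) j) := fun j => V_fin p (rs S) j
  haveI hZ : Module.Finite (ZMod p) (Z1 p (rV p (rs S) k)) := Z1_fin p (rV p (rs S) k)
  have h1 := LA_main S (PC_phi p (rs S) k) (fun q => V p (rs S) (k + 1 - q.2)) (fun q => hfin _)
    (fun q hq z => eval_mem p (rs S) k q.2 q.1 (hS q hq).2 z.1 z.2)
  have h2 : 1 + Module.finrank (ZMod p) (commonKer S (PC_phi p (rs S) k)) ≤ cc p (rs S) (k + 1) := by
    have h3 := LinearMap.finrank_le_finrank_of_injective (PC_psi_inj p S k)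
    rw [Module.finrank_prod, Module.finrank_self] at h3
    exact h3
  have h3 := hd (V p (rs S) k) (rV p (rs S) k) ((V p (rs S) (k - 1)).comap (V p (rs S) k).subtype)
    (fun g v hv => Rt_mem_V p (rs S) (k - 1) g v.1 hv)
    (fun g v => by
      have hv : v.1 ∈ V p (rs S) (k - 1 + 1) := by
        rw [Nat.sub_add_cancel hk]
        exact v.2
      have h4 := ((mem_V_succ p (rs S) (k - 1) v.1).1 hv).2 g
      exact h4)
  have h4 : Module.finrank (ZMod p) ((V p (rs S) (k - 1)).comap (V p (rs S) k).subtype)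
      = cc p (rs S) (k - 1) :=
    LinearEquiv.finrank_eq (Submodule.comapSubtypeEquivOfLe (V_le p (rs S) (Nat.sub_le k 1)))
  rw [h4] at h3
  have h5 : (S.map (fun q => (cc p (rs S) (k + 1 - q.2) : ℤ))).sum
      = (((S.map (fun q => Module.finrank (ZMod p) (V p (rs S) (k + 1 - q.2)))).sum : ℕ) : ℤ) := by
    rw [Nat.cast_list_sum, List.map_map]
    rfl
  rw [h5]
  have h6 : (Module.finrank (ZMod p) (Z1 p (rV p (rs S) k)) : ℤ)
      ≤ (Module.finrank (ZMod p) (commonKer S (PC_phi p (rs S) k)) : ℤ)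
        + (((S.map (fun q => Module.finrank (ZMod p) (V p (rs S) (k + 1 - q.2)))).sum : ℕ) : ℤ) := by
    exact_mod_cast h1
  have h7 : (1 : ℤ) + (Module.finrank (ZMod p) (commonKer S (PC_phi p (rs S) k)) : ℤ)
      ≤ (cc p (rs S) (k + 1) : ℤ) := by
    exact_mod_cast h2
  have h8 : d * (cc p (rs S) k : ℤ) - r * (cc p (rs S) (k - 1) : ℤ)
      ≤ (Module.finrank (ZMod p) (Z1 p (rV p (rs S) k)) : ℤ) := h3
  linarith

end Pool.Agent.H93.GS
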