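import Pool.Agent.H93.GS.PC
import Pool.Agent.H93.GS.NUM

/-!
ROW PD (70 lines).
* `unb`: `NUM_main` with `c = cc p (rs S)`, `A = S.map Prod.snd` (`List.map_map`), `cc_zero`, `cc_one`, `star`.
* `step`: let `N = Nk p ∅ D`, a normal subgroup of finite index `B` (`Nk_fin`, `Nk_normal`).  If `N ≤ Nk p (rs S) i` for all `i`, then every `f ∈ V p (rs S) i` is constant on the
  left cosets `x N` (`f (x n) = (Rt n f) x = f x`), so `V p (rs S) i` embeds in the functions `H ⧸ N → ZMod p` and `cc p (rs S) i ≤ B` for all `i`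
  (`LinearMap.finrank_le_finrank_of_injective`, or: the functions `f ∘ QuotientGroup.mk` form a submodule, range of `LinearMap.funLeft`, of finrank `≤ Nat.card (H ⧸ N) = N.index`):
  contradiction with `unb`.  Let `i` be least with `¬ N ≤ Nk p (rs S) i` (`Nat.find`).  For `i ≤ D`: `N ≤ Nk p ∅ i ≤ Nk p (rs S) i` (`Nk_anti`, `Nk_mono`), so `i ≥ D + 1`; minimality:
  `N ≤ Nk p (rs S) (i-1)`.  Choose `w ∈ N`, `w ∉ Nk p (rs S) i`.
-/

set_option autoImplicit false

namespace Pool.Agent.H93.GS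

theorem unb (p : ℕ) [Fact p.Prime] {H : Type} [Group H] [Group.FG H] (d r : ℤ) (hr : 0 ≤ r)
    (hd : GSD p H d r) (S : List (H × ℕ)) (hS : Dp p S) (t : ℝ) (ht0 : 0 < t) (ht1 : t < 1)
    (hneg : 1 - (d : ℝ) * t + (r : ℝ) * t ^ 2 + (S.map (fun q => t ^ q.2)).sum < 0) :
    ∀ B : ℕ, ∃ k, B < cc p (rs S) k := by
  refine NUM_main (cc p (rs S)) d r hr (S.map Prod.snd) ?_ t ht0 ht1 (cc_zero p _) (cc_one p _)
    ?_ ?_
  · intro a ha
    obtain ⟨q, hq, rfl⟩ := List.mem_map.1 ha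
    exact (hS q hq).1
  · intro k hk
    rw [List.map_map]
    exact star p d r hd S hS k hk
  · rw [List.map_map]
    exact hneg

theorem step (p : ℕ) [Fact p.Prime] {H : Type} [Group H] [Group.FG H] (S : List (H × ℕ))
    (hS : Dp p S) (hu : ∀ B : ℕ, ∃ k, B < cc p (rs S) k) (D : ℕ) :
    ∃ (i : ℕ) (w : H), D + 1 ≤ i ∧ w ∈ Nk p (∅ : Set H) D ∧ w ∈ Nk p (rs S) (i - 1) ∧
      w ∉ Nk p (rs S) i := by
  classical
  have hfin : (Nk p (∅ : Set H) D).FiniteIndex := Nk_fin p _ D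
  have hb : ∀ i, Nk p (∅ : Set H) D ≤ Nk p (rs S) i →
      cc p (rs S) i ≤ (Nk p (∅ : Set H) D).index := by
    intro i hi
    haveI : Finite (H ⧸ Nk p (∅ : Set H) D) := Subgroup.finite_quotient_of_finiteIndex
    haveI : Fintype (H ⧸ Nk p (∅ : Set H) D) := Fintype.ofFinite _
    let φ : V p (rs S) i →ₗ[ZMod p] (H ⧸ Nk p (∅ : Set H) D → ZMod p) :=
      (LinearMap.funLeft (ZMod p) (ZMod p)
        (fun q : H ⧸ Nk p (∅ : Set H) D => q.out)).comp (V p (rs S) i).subtype
    have hφ : Function.Injective φ := by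
      rw [injective_iff_map_eq_zero]
      intro f hf
      apply Subtype.ext
      funext x
      have hx : f.1 x = f.1 ((QuotientGroup.mk x : H ⧸ Nk p (∅ : Set H) D).out) := by
        obtain ⟨n, hn⟩ := QuotientGroup.mk_out_eq_mul (Nk p (∅ : Set H) D) x
        rw [hn]
        have h1 : Rt p (n : H) f.1 = f.1 := hi n.2 f.1 f.2
        exact (congrFun h1 x).symm
      rw [hx]
      exact congrFun hf (QuotientGroup.mk x)
    calc cc p (rs S) i ≤ Module.finrank (ZMod p) (H ⧸ Nk p (∅ : Set H) D → ZMod p) :=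
          LinearMap.finrank_le_finrank_of_injective hφ
      _ = (Nk p (∅ : Set H) D).index := by
          rw [Module.finrank_fintype_fun_eq_card, Subgroup.index, Nat.card_eq_fintype_card]
  have hex : ∃ i, ¬ Nk p (∅ : Set H) D ≤ Nk p (rs S) i := by
    by_contra hcon
    push Not at hcon
    obtain ⟨k, hk⟩ := hu (Nk p (∅ : Set H) D).index
    exact absurd (hb k (hcon k)) (by omega)
  have h1 := Nat.find_spec hex
  have h2 : D + 1 ≤ Nat.find hex := by
    by_contra hcon
    exact h1 ((Nk_anti p (∅ : Set H) (by omega)).trans (Nk_mono p (Set.empty_subset _) _))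
  have h3 : Nk p (∅ : Set H) D ≤ Nk p (rs S) (Nat.find hex - 1) := by
    by_contra hcon
    exact Nat.find_min hex (m := Nat.find hex - 1) (by omega) hcon
  obtain ⟨w, hw1, hw2⟩ := SetLike.not_le_iff_exists.1 h1
  exact ⟨Nat.find hex, w, h2, hw1, h3 hw1, hw2⟩

end Pool.Agent.H93.GS
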