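import Pool.Agent.H93.GS.PD

/-!
ROW QA (70 lines).  Adding the relators `w^p` and `v w v⁻¹ w⁻¹` (`v ∈ W`), all of depth `D`.
* `Dp_append`: `w^p` and `v w v⁻¹ w⁻¹` are in the normal subgroup `Nk p ∅ D` (`Nk_normal`).
* `new_mem`: if `w ∈ Nk p (rs S) (i-1)` and `1 ≤ i` they are in `Nk p (rs S) i` (`pow_mem_Nk`, `comm_mem_Nk` with `a = i - 1`).
* `rs_append`: clear.  `Nk_append`: `V_union`, so `V p (rs (S ++ T)) i = V p (rs S) i`, and `Nk` only depends on `V`.
* `new_sum`: `List.map_append`, `List.sum_append`, all terms of `newR` are `t^D`, there are `W.length + 1`.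
-/

set_option autoImplicit false

namespace Pool.Agent.H93.GS

/-- new relators `w^p`, `v w v⁻¹ w⁻¹` for `v ∈ W`, of depth `D` -/
def newR (p : ℕ) {H : Type} [Group H] (w : H) (D : ℕ) (W : List H) : List (H × ℕ) :=
  (w ^ p, D) :: W.map (fun v => (v * w * v⁻¹ * w⁻¹, D))

theorem QA_mem (p : ℕ) {H : Type} [Group H] (w : H) (D : ℕ) (W : List H) (q : H × ℕ)
    (hq : q ∈ newR p w D W) : q = (w ^ p, D) ∨ ∃ v : H, q = (v * w * v⁻¹ * w⁻¹, D) := by
  unfold newR at hq
  rcases List.mem_cons.1 hq with h | h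
  · exact Or.inl h
  · obtain ⟨v, -, hv⟩ := List.mem_map.1 h
    exact Or.inr ⟨v, hv.symm⟩

theorem rs_append {H : Type} (S T : List (H × ℕ)) : rs (S ++ T) = rs S ∪ rs T := by
  ext x
  unfold rs
  simp only [List.mem_append, Set.mem_setOf_eq, Set.mem_union]
  exact exists_or

theorem Dp_append (p : ℕ) {H : Type} [Group H] (S : List (H × ℕ)) (hS : Dp p S) (w : H)
    (D : ℕ) (hD : 1 ≤ D) (hw : w ∈ Nk p (∅ : Set H) D) (W : List H) :
    Dp p (S ++ newR p w D W) := by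
  intro q hq
  rcases List.mem_append.1 hq with h | h
  · exact hS q h
  · rcases QA_mem p w D W q h with rfl | ⟨v, rfl⟩
    · exact ⟨hD, Subgroup.pow_mem _ hw p⟩
    · exact ⟨hD, Subgroup.mul_mem _ ((Nk_normal p (∅ : Set H) D).conj_mem w hw v)
        (Subgroup.inv_mem _ hw)⟩

theorem new_mem (p : ℕ) {H : Type} [Group H] (S : List (H × ℕ)) (w : H) (D i : ℕ)
    (hi : 1 ≤ i) (hw : w ∈ Nk p (rs S) (i - 1)) (W : List H) (x : H)
    (hx : x ∈ rs (newR p w D W)) : x ∈ Nk p (rs S) i := by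
  obtain ⟨a, ha⟩ := hx
  have e : i - 1 + 1 = i := by omega
  rcases QA_mem p w D W (x, a) ha with h | ⟨v, h⟩
  · have h1 : x = w ^ p := congrArg Prod.fst h
    have h2 := pow_mem_Nk p (rs S) (i - 1) w hw
    rw [e] at h2
    rw [h1]
    exact h2
  · have h1 : x = v * w * v⁻¹ * w⁻¹ := congrArg Prod.fst h
    have h2 := comm_mem_Nk p (rs S) (i - 1) w v hw
    rw [e] at h2
    rw [h1]
    exact h2

theorem Nk_append (p : ℕ) {H : Type} [Group H] (S T : List (H × ℕ)) (i : ℕ)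
    (hT : ∀ x ∈ rs T, x ∈ Nk p (rs S) i) : Nk p (rs (S ++ T)) i = Nk p (rs S) i := by
  ext g
  rw [mem_Nk, mem_Nk, rs_append, V_union p (rs S) (rs T) i hT]

theorem new_sum (p : ℕ) {H : Type} [Group H] (S : List (H × ℕ)) (w : H) (D : ℕ) (W : List H)
    (t : ℝ) : ((S ++ newR p w D W).map (fun q => t ^ q.2)).sum =
      (S.map (fun q => t ^ q.2)).sum + ((W.length : ℝ) + 1) * t ^ D := by
  have h : (W.map (fun _ => t ^ D)).sum = (W.length : ℝ) * t ^ D := by
    rw [List.map_const', List.sum_replicate, nsmul_eq_mul]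
  unfold newR
  rw [List.map_append, List.sum_append, List.map_cons, List.sum_cons, List.map_map]
  have h2 : (List.map ((fun q : H × ℕ => t ^ q.2) ∘ fun v => (v * w * v⁻¹ * w⁻¹, D)) W).sum =
      (W.map (fun _ => t ^ D)).sum := rfl
  rw [h2, h]
  ring

end Pool.Agent.H93.GS
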