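import Pool.Agent.H93.GS.QA

/-!
ROW QB (120 lines).  The infinite construction.
Put `ε = -(1 - d t + r t²)/2 > 0`.  A state is a triple `(S, W, m) : List (H × ℕ) × List H × ℕ`; `P k (S, W, m)`: `Dp p S`, `W.length = k`, `1 ≤ m`, `∑_{q ∈ S} t^{q.2} ≤ ε (1 - (1/2)^k)`.
`P 0 ([], [], 1)`.
Step: given `P k (S, W, m)` choose `D ≥ m` with `(k+1) t^D ≤ ε (1/2)^(k+1)` (`exists_pow_lt_of_lt_one`, or `tendsto_pow_atTop_nhds_zero_of_lt_one`), `unb` holds for `S` (the sum with `hneg` is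
`≤ -2ε + ε < 0`), `step` gives `i ≥ D + 1`, `w`.  New state `(S ++ newR p w D W, W ++ [w], i)`: `Dp_append`, `new_sum`; and `w ∉ Nk p (rs (S ++ newR p w D W)) i` by
`Nk_append` + `new_mem`.
So for all `k` and all states with `P k` there is a next state with `P (k+1)`; build the sequence of states with choice (e.g. sequence in the sigma type / `Nat.rec` on `{s // P k s}`),
let `w k`, `D k` be the chosen data; `W_k = (List.range k).map w` by induction (`List.range_succ`).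
-/

set_option autoImplicit false

namespace Pool.Agent.H93.GS

/-- invariant of the construction -/
private def QBP (p : ℕ) {H : Type} [Group H] (t ε : ℝ) (k : ℕ)
    (s : List (H × ℕ) × List H × ℕ) : Prop :=
  Dp p s.1 ∧ s.2.1.length = k ∧ 1 ≤ s.2.2 ∧
    (s.1.map (fun q => t ^ q.2)).sum ≤ ε * (1 - (1 / 2) ^ k)

private theorem QB_step (p : ℕ) [Fact p.Prime] {H : Type} [Group H] [Group.FG H] (d r : ℤ)
    (hr : 0 ≤ r) (hd : GSD p H d r) (t : ℝ) (ht0 : 0 < t) (ht1 : t < 1) (ε : ℝ) (hε : 0 < ε)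
    (hneg : 1 - (d : ℝ) * t + (r : ℝ) * t ^ 2 = -(2 * ε)) (k : ℕ)
    (s : List (H × ℕ) × List H × ℕ) (hs : QBP p t ε k s) :
    ∃ (w : H) (D : ℕ) (s' : List (H × ℕ) × List H × ℕ),
      1 ≤ D ∧ s.2.2 ≤ D ∧ D + 1 ≤ s'.2.2 ∧ w ∈ Nk p (∅ : Set H) D ∧
      w ∉ Nk p (rs s'.1) s'.2.2 ∧ s'.1 = s.1 ++ newR p w D s.2.1 ∧ s'.2.1 = s.2.1 ++ [w] ∧
      QBP p t ε (k + 1) s' := by
  obtain ⟨S, W, m⟩ := s
  obtain ⟨h1, h2, h3, h4⟩ := hs
  simp only at h1 h2 h3 h4 ⊢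
  have hk : (0 : ℝ) < (k : ℝ) + 1 := by positivity
  have hpos : 0 < ε * (1 / 2) ^ (k + 1) / ((k : ℝ) + 1) := by positivity
  obtain ⟨n0, hn0⟩ := exists_pow_lt_of_lt_one hpos ht1
  obtain ⟨D, hD⟩ : ∃ D, D = max m n0 := ⟨_, rfl⟩
  have hmD : m ≤ D := by rw [hD]; exact le_max_left _ _
  have hnD : n0 ≤ D := by rw [hD]; exact le_max_right _ _
  have htD : ((k : ℝ) + 1) * t ^ D ≤ ε * (1 / 2) ^ (k + 1) := by
    have e1 : t ^ D ≤ t ^ n0 := pow_le_pow_of_le_one ht0.le ht1.le hnD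
    have e2 := e1.trans hn0.le
    rw [le_div_iff₀ hk] at e2
    linarith
  have hp1 : (0 : ℝ) < (1 / 2) ^ k := by positivity
  have hu := unb p d r hr hd S h1 t ht0 ht1 (by
    have e3 : ε * (1 - (1 / 2) ^ k) ≤ ε := by
      have := mul_pos hε hp1
      linarith
    linarith)
  obtain ⟨i, w, hi, hw1, hw2, hw3⟩ := step p S h1 hu D
  refine ⟨w, D, (S ++ newR p w D W, W ++ [w], i), by omega, hmD, hi, hw1, ?_, rfl, rfl, ?_⟩
  · simp only
    rw [Nk_append p S (newR p w D W) i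
      (fun x hx => new_mem p S w D i (by omega) hw2 W x hx)]
    exact hw3
  · refine ⟨Dp_append p S h1 w D (by omega) hw1 W, ?_, ?_, ?_⟩
    · simp [h2]
    · show 1 ≤ i
      omega
    · show ((S ++ newR p w D W).map (fun q => t ^ q.2)).sum ≤ _
      rw [new_sum, h2]
      have e4 : ((1 : ℝ) / 2) ^ k = 2 * (1 / 2) ^ (k + 1) := by
        rw [pow_succ]
        ring
      rw [e4] at h4
      have e5 : ε * (1 - 2 * (1 / 2) ^ (k + 1)) + ε * (1 / 2) ^ (k + 1) =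
          ε * (1 - (1 / 2) ^ (k + 1)) := by ring
      linarith

theorem QB_main (p : ℕ) [Fact p.Prime] {H : Type} [Group H] [Group.FG H] (d r : ℤ)
    (hr : 0 ≤ r) (hd : GSD p H d r) (t : ℝ) (ht0 : 0 < t) (ht1 : t < 1)
    (hneg : 1 - (d : ℝ) * t + (r : ℝ) * t ^ 2 < 0) :
    ∃ (S : ℕ → List (H × ℕ)) (w : ℕ → H) (D m : ℕ → ℕ),
      (∀ k, 1 ≤ D k) ∧ (∀ k, m k ≤ D k) ∧ (∀ k, D k + 1 ≤ m (k + 1)) ∧
      (∀ k, w k ∈ Nk p (∅ : Set H) (D k)) ∧
      (∀ k, w k ∉ Nk p (rs (S (k + 1))) (m (k + 1))) ∧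
      (∀ k, S (k + 1) = S k ++ newR p (w k) (D k) ((List.range k).map w)) := by
  obtain ⟨ε, hεd⟩ : ∃ ε, ε = -(1 - (d : ℝ) * t + (r : ℝ) * t ^ 2) / 2 := ⟨_, rfl⟩
  have hε : 0 < ε := by rw [hεd]; linarith
  have hneg' : 1 - (d : ℝ) * t + (r : ℝ) * t ^ 2 = -(2 * ε) := by rw [hεd]; ring
  choose w D s' a1 a2 a3 a4 a5 a6 a7 a8 using
    QB_step p d r hr hd t ht0 ht1 ε hε hneg'
  have h0 : QBP p t ε 0 (([], [], 1) : List (H × ℕ) × List H × ℕ) := by
    refine ⟨?_, rfl, le_rfl, ?_⟩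
    · intro q hq
      simp at hq
    · simp
  let seq : (k : ℕ) → {s : List (H × ℕ) × List H × ℕ // QBP p t ε k s} := fun k =>
    Nat.rec (motive := fun k => {s : List (H × ℕ) × List H × ℕ // QBP p t ε k s})
      ⟨([], [], 1), h0⟩ (fun k s => ⟨s' k s.1 s.2, a8 k s.1 s.2⟩) k
  have hseq : ∀ k, (seq (k + 1)).1 = s' k (seq k).1 (seq k).2 := fun k => rfl
  have hW : ∀ k, (seq k).1.2.1 = (List.range k).map (fun j => w j (seq j).1 (seq j).2) := by
    intro k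
    induction k with
    | zero => rfl
    | succ k ih =>
      rw [hseq, a7, ih, List.range_succ, List.map_append]
      rfl
  refine ⟨fun k => (seq k).1.1, fun k => w k (seq k).1 (seq k).2,
    fun k => D k (seq k).1 (seq k).2, fun k => (seq k).1.2.2, ?_, ?_, ?_, ?_, ?_, ?_⟩
  · exact fun k => a1 k _ _
  · exact fun k => a2 k _ _
  · exact fun k => a3 k _ _
  · exact fun k => a4 k _ _
  · exact fun k => a5 k _ _
  · intro k
    show (seq (k + 1)).1.1 = _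
    rw [hseq, a6, hW]

end Pool.Agent.H93.GS
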