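import Pool.Agent.H93.GS.QB

/-!
ROW QC (110 lines).  The quotient with an infinite elementary abelian subgroup.
From `QB_main`: `S, w, D, m`.  `m` is increasing, `m (k+1) ≤ D l` for `l > k` (`m (k+1) ≤ m l ≤ D l`).  `T = ⋃ k, rs (S k)`, `N = Subgroup.normalClosure T`.
* `w i ^ p ∈ rs (S (i+1)) ⊆ N`.  For `i < j`: `w i * w j * (w i)⁻¹ * (w j)⁻¹ ∈ rs (S (j+1)) ⊆ N` (`w i` is in the list `(List.range j).map w`).  For `i > j` it is the inverse of the one for
  `(j, i)`, for `i = j` it is `1`.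
* Fix `k`, `i = m (k+1)`.  Every element of `rs (S l)`, for any `l`, is in `rs (S (k+1))` or in `Nk p ∅ i`: if `l ≤ k+1` then `rs (S l) ⊆ rs (S (k+1))`; the new relators at a stage
  `l ≥ k+1` are in `Nk p ∅ (D l) ≤ Nk p ∅ i` (`Nk_normal`, `Nk_anti`).  So `T ⊆ rs (S (k+1)) ∪ T'`, `rs (S (k+1)) ∪ T' = T` with `T' = T ∩ Nk p ∅ i ⊆ Nk p (rs (S (k+1))) i`
  (`Nk_mono`), hence `V p T i = V p (rs (S (k+1))) i` (`V_union`) and `Nk p T i = Nk p (rs (S (k+1))) i`: `w k ∉ Nk p T i`.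
* `N ≤ Nk p T i` (`mem_Nk_of_mem`, `Nk_normal`, `Subgroup.normalClosure_le_normal`).  For `l > k`: `w l ∈ Nk p ∅ (D l) ≤ Nk p ∅ i ≤ Nk p T i`.
  If `(w k)⁻¹ * w l ∈ N` then `w k = w l * ((w k)⁻¹ * w l)⁻¹ ∈ Nk p T i`, contradiction.
-/

set_option autoImplicit false

namespace Pool.Agent.H93.GS

theorem QC_mono (p : ℕ) {H : Type} [Group H] (S : ℕ → List (H × ℕ)) (w : ℕ → H) (D : ℕ → ℕ)
    (hS : ∀ k, S (k + 1) = S k ++ newR p (w k) (D k) ((List.range k).map w)) :
    Monotone (fun l => rs (S l)) := by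
  refine monotone_nat_of_le_succ (fun l => ?_)
  show rs (S l) ≤ rs (S (l + 1))
  rw [hS l, rs_append]
  exact Set.subset_union_left

theorem QC_new (p : ℕ) {H : Type} [Group H] (w : H) (D : ℕ) (W : List H)
    (hw : w ∈ Nk p (∅ : Set H) D) (x : H) (hx : x ∈ rs (newR p w D W)) :
    x ∈ Nk p (∅ : Set H) D := by
  obtain ⟨a, ha⟩ := hx
  have hn := Nk_normal p (∅ : Set H) D
  unfold newR at ha
  rw [List.mem_cons] at ha
  rcases ha with ha | ha
  · have h1 : x = w ^ p := congrArg Prod.fst ha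
    rw [h1]
    exact Subgroup.pow_mem _ hw p
  · rw [List.mem_map] at ha
    obtain ⟨v, _, hva⟩ := ha
    have h1 : v * w * v⁻¹ * w⁻¹ = x := congrArg Prod.fst hva
    rw [← h1]
    exact Subgroup.mul_mem _ (hn.conj_mem _ hw v) (Subgroup.inv_mem _ hw)

theorem QC_rs (p : ℕ) {H : Type} [Group H] (S : ℕ → List (H × ℕ)) (w : ℕ → H) (D m : ℕ → ℕ)
    (hmD : ∀ k, m k ≤ D k) (hm : Monotone m)
    (hw1 : ∀ k, w k ∈ Nk p (∅ : Set H) (D k))
    (hS : ∀ k, S (k + 1) = S k ++ newR p (w k) (D k) ((List.range k).map w)) (k l : ℕ) (x : H)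
    (hx : x ∈ rs (S l)) : x ∈ rs (S (k + 1)) ∨ x ∈ Nk p (∅ : Set H) (m (k + 1)) := by
  rcases le_total l (k + 1) with h | h
  · left
    exact QC_mono p S w D hS h hx
  · revert x
    induction l, h using Nat.le_induction with
    | base => intro x hx; left; exact hx
    | succ l hl ih =>
      intro x hx
      rw [hS l, rs_append] at hx
      rcases hx with hx | hx
      · exact ih x hx
      · right
        have h1 : m (k + 1) ≤ D l := le_trans (hm hl) (hmD l)
        exact Nk_anti p (∅ : Set H) h1 (QC_new p (w l) (D l) _ (hw1 l) x hx)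

theorem thmA (p : ℕ) [Fact p.Prime] {H : Type} [Group H] [Group.FG H] (d r : ℤ)
    (hr : 0 ≤ r) (hd : GSD p H d r) (t : ℝ) (ht0 : 0 < t) (ht1 : t < 1)
    (hneg : 1 - (d : ℝ) * t + (r : ℝ) * t ^ 2 < 0) :
    ∃ (N : Subgroup H) (w : ℕ → H), N.Normal ∧ (∀ i, w i ^ p ∈ N) ∧
      (∀ i j, w i * w j * (w i)⁻¹ * (w j)⁻¹ ∈ N) ∧ ∀ k l, k < l → (w k)⁻¹ * w l ∉ N := by
  obtain ⟨S, w, D, m, hD, hmD, hDm, hw1, hw2, hS⟩ := QB_main p d r hr hd t ht0 ht1 hneg
  have hm : Monotone m := monotone_nat_of_le_succ (fun n => by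
    have h1 := hmD n
    have h2 := hDm n
    omega)
  obtain ⟨T, hT⟩ : ∃ T : Set H, T = ⋃ k, rs (S k) := ⟨_, rfl⟩
  have hmemT : ∀ l x, x ∈ rs (S l) → x ∈ Subgroup.normalClosure T := by
    intro l x hx
    refine Subgroup.subset_normalClosure ?_
    rw [hT]
    exact Set.mem_iUnion.2 ⟨l, hx⟩
  have hcomm : ∀ i j, i < j → w i * w j * (w i)⁻¹ * (w j)⁻¹ ∈ Subgroup.normalClosure T := by
    intro i j hij
    refine hmemT (j + 1) _ ?_
    rw [hS j, rs_append]
    right
    refine ⟨D j, ?_⟩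
    unfold newR
    rw [List.mem_cons]
    right
    rw [List.mem_map]
    exact ⟨w i, List.mem_map.2 ⟨i, List.mem_range.2 hij, rfl⟩, rfl⟩
  refine ⟨Subgroup.normalClosure T, w, Subgroup.normalClosure_normal, ?_, ?_, ?_⟩
  · intro i
    refine hmemT (i + 1) _ ?_
    rw [hS i, rs_append]
    right
    refine ⟨D i, ?_⟩
    unfold newR
    exact List.mem_cons_self
  · intro i j
    rcases lt_trichotomy i j with h | h | h
    · exact hcomm i j h
    · subst h
      have h1 : w i * w i * (w i)⁻¹ * (w i)⁻¹ = 1 := by group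
      rw [h1]
      exact Subgroup.one_mem _
    · have h1 : w i * w j * (w i)⁻¹ * (w j)⁻¹ = (w j * w i * (w j)⁻¹ * (w i)⁻¹)⁻¹ := by group
      rw [h1]
      exact Subgroup.inv_mem _ (hcomm j i h)
  · intro k l hkl hN
    have hU : rs (S (k + 1)) ∪ (T ∩ (Nk p (∅ : Set H) (m (k + 1)) : Set H)) = T := by
      refine Set.Subset.antisymm ?_ ?_
      · refine Set.union_subset ?_ Set.inter_subset_left
        rw [hT]
        exact Set.subset_iUnion (fun k => rs (S k)) (k + 1)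
      · intro x hx
        have hx' := hx
        rw [hT, Set.mem_iUnion] at hx'
        obtain ⟨l', hl'⟩ := hx'
        rcases QC_rs p S w D m hmD hm hw1 hS k l' x hl' with h | h
        · left; exact h
        · right; exact ⟨hx, h⟩
    have hV : V p T (m (k + 1)) = V p (rs (S (k + 1))) (m (k + 1)) := by
      have h1 := V_union p (rs (S (k + 1))) (T ∩ (Nk p (∅ : Set H) (m (k + 1)) : Set H))
        (m (k + 1)) (fun t ht => Nk_mono p (Set.empty_subset _) (m (k + 1)) ht.2)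
      rw [hU] at h1
      exact h1
    have hNk : Nk p T (m (k + 1)) = Nk p (rs (S (k + 1))) (m (k + 1)) := by
      ext g
      rw [mem_Nk, mem_Nk, hV]
    have hle : Subgroup.normalClosure T ≤ Nk p T (m (k + 1)) := by
      have hn := Nk_normal p T (m (k + 1))
      exact Subgroup.normalClosure_le_normal (fun s hs => mem_Nk_of_mem p T (m (k + 1)) s hs)
    have hwl : w l ∈ Nk p T (m (k + 1)) := by
      have h1 : m (k + 1) ≤ D l := le_trans (hm hkl) (hmD l)
      exact Nk_mono p (Set.empty_subset _) (m (k + 1)) (Nk_anti p (∅ : Set H) h1 (hw1 l))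
    have hwk : w k ∈ Nk p T (m (k + 1)) := by
      have h1 : w k = w l * ((w k)⁻¹ * w l)⁻¹ := by group
      rw [h1]
      exact Subgroup.mul_mem _ hwl (Subgroup.inv_mem _ (hle hN))
    rw [hNk] at hwk
    exact hw2 k hwk

end Pool.Agent.H93.GS
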