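import Pool.Agent.H93.GS.Defs

/-!
ROW VA (60 lines).  First properties of `V p S k` (defined in Defs; use `mem_V_zero`, `mem_V_succ`, `mem_Inv`, `Dr_apply`).
* `V_mono` by induction on `k` (`k = 0`: `V p S 0 = ⊥`; step: `Dr p h f ∈ V p S k ≤ V p S (k+1)`).  `V_le` : `Nat.le_induction` or `monotone_nat_of_le_succ`.
* `V_anti` by induction on `k` (`Inv p S' ≤ Inv p S` for `S ⊆ S'`).
* `const_mem`: constants are in `Inv p S`, and `Dr p h` kills them.
* `V_one`: `f ∈ V p S 1` iff `f ∈ Inv p S` and all `Dr p h f = 0`, i.e. `f (x h) = f x`, take `x = 1`.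
* `cc_zero`: `finrank_bot`.  `cc_one`: `V p S 1` is spanned by the constant function `1` (`finrank_span_singleton`, or the equivalence with `ZMod p`).
-/

set_option autoImplicit false

namespace Pool.Agent.H93.GS

theorem V_mono (p : ℕ) {H : Type} [Group H] (S : Set H) (k : ℕ) : V p S k ≤ V p S (k + 1) := by
  induction k with
  | zero =>
    intro f hf
    rw [mem_V_zero] at hf
    subst hf
    exact Submodule.zero_mem _
  | succ k ih =>
    intro f hf
    rw [mem_V_succ] at hf
    rw [mem_V_succ]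
    exact ⟨hf.1, fun h => ih (hf.2 h)⟩

theorem V_le (p : ℕ) {H : Type} [Group H] (S : Set H) {j k : ℕ} (h : j ≤ k) :
    V p S j ≤ V p S k :=
  monotone_nat_of_le_succ (V_mono p S) h

theorem V_anti (p : ℕ) {H : Type} [Group H] {S S' : Set H} (h : S ⊆ S') (k : ℕ) :
    V p S' k ≤ V p S k := by
  induction k with
  | zero =>
    intro f hf
    rw [mem_V_zero] at hf
    subst hf
    exact Submodule.zero_mem _
  | succ k ih =>
    intro f hf
    rw [mem_V_succ] at hf
    rw [mem_V_succ]
    exact ⟨fun s hs x y => hf.1 s (h hs) x y, fun g => ih (hf.2 g)⟩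

theorem V_inv (p : ℕ) {H : Type} [Group H] (S : Set H) (k : ℕ) : V p S k ≤ Inv p S := by
  intro f hf
  exact ((mem_V_succ p S k f).1 (V_mono p S k hf)).1

theorem const_mem (p : ℕ) {H : Type} [Group H] (S : Set H) (k : ℕ) (c : ZMod p) :
    (fun _ : H => c) ∈ V p S (k + 1) := by
  rw [mem_V_succ]
  refine ⟨fun s _ x y => rfl, fun h => ?_⟩
  have : Dr p h (fun _ : H => c) = 0 := by
    funext x
    simp [Dr_apply]
  rw [this]
  exact Submodule.zero_mem _

theorem V_one (p : ℕ) {H : Type} [Group H] (S : Set H) (f : H → ZMod p) :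
    f ∈ V p S 1 ↔ ∃ c : ZMod p, f = fun _ => c := by
  constructor
  · intro hf
    rw [mem_V_succ] at hf
    refine ⟨f 1, ?_⟩
    funext x
    have h := hf.2 x
    rw [mem_V_zero, Dr_eq_zero] at h
    have h1 := congrFun h 1
    rw [Rt_apply, one_mul] at h1
    exact h1
  · rintro ⟨c, rfl⟩
    exact const_mem p S 0 c

theorem cc_zero (p : ℕ) [Fact p.Prime] {H : Type} [Group H] (S : Set H) : cc p S 0 = 0 := by
  have h : V p S 0 = ⊥ := rfl
  rw [cc, h]
  exact finrank_bot _ _

theorem cc_one (p : ℕ) [Fact p.Prime] {H : Type} [Group H] (S : Set H) : cc p S 1 = 1 := by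
  have h : V p S 1 = Submodule.span (ZMod p) {(fun _ : H => (1 : ZMod p))} := by
    ext f
    rw [V_one, Submodule.mem_span_singleton]
    constructor
    · rintro ⟨c, rfl⟩
      refine ⟨c, ?_⟩
      funext x
      simp
    · rintro ⟨c, rfl⟩
      refine ⟨c, ?_⟩
      funext x
      simp
  rw [cc, h]
  refine finrank_span_singleton ?_
  intro h0
  have := congrFun h0 1
  simp at this

end Pool.Agent.H93.GS
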