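import Pool.Agent.H93.GS.VA
import Pool.Agent.H93.GS.VB

/-!
ROW VC.  `V p S k` can be defined with left differences as well.
-/

set_option autoImplicit false

namespace Pool.Agent.H93.GS

theorem mem_V_succ_left (p : ℕ) {H : Type} [Group H] (S : Set H) (k : ℕ) (f : H → ZMod p) :
    f ∈ V p S (k + 1) ↔ f ∈ Inv p S ∧ ∀ h : H, El p h f ∈ V p S k := by
  induction k generalizing f with
  | zero =>
    constructor
    · intro hf
      refine ⟨V_inv p S 1 hf, fun h => ?_⟩
      rw [mem_V_zero]
      obtain ⟨c, rfl⟩ := (V_one p S f).1 hf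
      funext x
      simp [El_apply]
    · rintro ⟨-, hf⟩
      rw [V_one]
      refine ⟨f 1, ?_⟩
      funext h
      have h1 := hf h
      rw [mem_V_zero] at h1
      have h2 := congrFun h1 1
      rw [El_apply, mul_one] at h2
      simpa [sub_eq_zero] using h2
  | succ k ih =>
    constructor
    · intro hf
      refine ⟨V_inv p S _ hf, fun h => ?_⟩
      rw [mem_V_succ] at hf ⊢
      refine ⟨El_mem_Inv p S h f hf.1, fun g => ?_⟩
      rw [Dr_El]
      exact ((ih (Dr p g f)).1 (hf.2 g)).2 h
    · rintro ⟨hf, hE⟩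
      rw [mem_V_succ]
      refine ⟨hf, fun g => ?_⟩
      rw [ih]
      refine ⟨Dr_mem_Inv p S g f hf, fun h => ?_⟩
      rw [← Dr_El]
      exact ((mem_V_succ p S k _).1 (hE h)).2 g

end Pool.Agent.H93.GS
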